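import Pool.Agent.H5.GR.Defs

set_option autoImplicit false

namespace Pool.Agent.H5.GR

/-- the gcd subtracted at index `n + 1` -/
def g (N n : ℕ) : ℕ := Int.gcd (a N n) ((n + 1 + b (n + 1) : ℕ) : ℤ)

/-- `x n = n + 1 + b (n + 1)` -/
def x (n : ℕ) : ℕ := n + 1 + b (n + 1)

theorem b_cases (n : ℕ) : (n % 3 = 0 ∧ b n = 0) ∨ (n % 3 = 1 ∧ b n = 2) ∨ (n % 3 = 2 ∧ b n = 6) := by
  unfold b
  have : n % 3 < 3 := Nat.mod_lt _ (by norm_num)
  split_ifs <;> omega

theorem b_le (n : ℕ) : b n ≤ 6 := by rcases b_cases n with h | h | h <;> omega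

theorem x_ge (n : ℕ) : n + 1 ≤ x n := by unfold x; omega

theorem x_le (n : ℕ) : x n ≤ n + 7 := by have := b_le (n + 1); unfold x; omega

theorem x_pos (n : ℕ) : 0 < x n := by have := x_ge n; omega

theorem a_succ (N n : ℕ) (hn : 1 ≤ n) : a N (n + 1) = a N n - (g N n : ℤ) := by
  obtain ⟨m, rfl⟩ : ∃ m, n = m + 1 := ⟨n - 1, by omega⟩
  rfl

theorem a_one (N : ℕ) : a N 1 = (N : ℤ) - 6 := rfl

theorem g_pos (N n : ℕ) : 1 ≤ g N n := by
  unfold g
  rw [Nat.one_le_iff_ne_zero]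
  intro h
  rw [Int.gcd_eq_zero_iff] at h
  have h2 : n + 1 + b (n + 1) = 0 := by exact_mod_cast h.2
  omega

theorem g_le (N n : ℕ) (h : 0 < a N n) : (g N n : ℤ) ≤ a N n := by
  unfold g
  exact Int.gcd_le_left _ h

theorem g_dvd_x (N n : ℕ) : g N n ∣ x n := by
  unfold g x
  have := Int.gcd_dvd_right (a N n) ((n + 1 + b (n + 1) : ℕ) : ℤ)
  exact_mod_cast this

theorem g_dvd_a (N n : ℕ) : (g N n : ℤ) ∣ a N n := Int.gcd_dvd_left _ _

theorem g_le_x (N n : ℕ) : g N n ≤ x n := Nat.le_of_dvd (x_pos n) (g_dvd_x N n)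

theorem exists_zero (N : ℕ) (hN : 6 ≤ N) : ∃ n, 1 ≤ n ∧ a N n = 0 := by
  by_contra hcon
  push Not at hcon
  have key : ∀ n, 1 ≤ n → 0 < a N n ∧ a N n + n ≤ (N : ℤ) - 5 := by
    intro n hn
    induction n, hn using Nat.le_induction with
    | base =>
      have h1 := hcon 1 le_rfl
      rw [a_one] at h1 ⊢
      constructor
      · have : (6 : ℤ) ≤ N := by exact_mod_cast hN
        omega
      · push_cast; omega
    | succ n hn ih =>
      have h1 := hcon (n + 1) (by omega)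
      have h2 := a_succ N n hn
      have h3 := g_pos N n
      have h4 := g_le N n ih.1
      constructor
      · omega
      · push_cast; omega
  have := key N (by omega)
  omega

theorem f_spec (N : ℕ) (hN : 6 ≤ N) : 1 ≤ f N ∧ a N (f N) = 0 :=
  Nat.sInf_mem (exists_zero N hN)

theorem a_pos_of_lt (N : ℕ) (hN : 6 ≤ N) (n : ℕ) (hn : 1 ≤ n) (hnf : n < f N) : 0 < a N n := by
  have hne : ∀ m, 1 ≤ m → m < f N → a N m ≠ 0 := by
    intro m hm hmf h0
    exact Nat.notMem_of_lt_sInf hmf ⟨hm, h0⟩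
  induction n, hn using Nat.le_induction with
  | base =>
    have h1 := hne 1 le_rfl hnf
    rw [a_one] at h1 ⊢
    have : (6 : ℤ) ≤ N := by exact_mod_cast hN
    omega
  | succ n hn ih =>
    have h0 := ih (by omega)
    have h1 := hne (n + 1) (by omega) hnf
    have h2 := a_succ N n hn
    have h4 := g_le N n h0
    omega

/-- crude lower bound for the early terms -/
theorem a_lower (N n : ℕ) (hn : 1 ≤ n) :
    2 * (N : ℤ) - 12 - ((n : ℤ) - 1) * (n + 14) ≤ 2 * a N n := by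
  induction n, hn using Nat.le_induction with
  | base => rw [a_one]; push_cast; ring_nf; omega
  | succ n hn ih =>
    have h1 := a_succ N n hn
    have h2 : (g N n : ℤ) ≤ n + 7 := by
      have := (g_le_x N n).trans (x_le n)
      exact_mod_cast this
    push_cast
    nlinarith

theorem a_anti (N n m : ℕ) (hn : 1 ≤ n) (hm : n ≤ m) : a N m ≤ a N n := by
  induction m, hm using Nat.le_induction with
  | base => exact le_rfl
  | succ m hm ih =>
    have h1 := a_succ N m (by omega)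
    have h2 := g_pos N m
    omega

theorem a_le (N n : ℕ) (hn : 1 ≤ n) : a N n ≤ N := by
  have := a_anti N 1 n le_rfl hn
  rw [a_one] at this
  omega

/-- `v n = x n / g n` -/
def v (N n : ℕ) : ℕ := x n / g N n

theorem g_mul_v (N n : ℕ) : g N n * v N n = x n := Nat.mul_div_cancel' (g_dvd_x N n)

theorem v_pos (N n : ℕ) : 1 ≤ v N n := by
  have h1 := g_mul_v N n
  have h2 := x_pos n
  rcases Nat.eq_zero_or_pos (v N n) with h | h
  · rw [h] at h1; omega
  · exact h

theorem v_dvd_x (N n : ℕ) : v N n ∣ x n := Dvd.intro_left _ (g_mul_v N n)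

/-- telescoping sum of the gcds -/
theorem sum_g (N n m : ℕ) (hn : 1 ≤ n) (hm : n ≤ m) :
    ((∑ k ∈ Finset.Ico n m, g N k : ℕ) : ℤ) = a N n - a N m := by
  induction m, hm using Nat.le_induction with
  | base => simp
  | succ m hm ih =>
    rw [Finset.sum_Ico_succ_top hm]
    push_cast at ih ⊢
    rw [ih, a_succ N m (by omega)]
    ring

/-- the pair identity: for `1 ≤ i < j` the product `g_i g_j` divides
`L x_j + y_j (x_j - x_i)`, `L` the loss strictly between -/
theorem pair_identity (N i j : ℕ) (hi : 1 ≤ i) (hij : i < j) :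
    ∃ E : ℤ, E * ((g N i : ℤ) * (g N j : ℤ)) =
      ((∑ k ∈ Finset.Ico (i + 1) j, g N k : ℕ) : ℤ) * (x j : ℤ) + a N j * ((x j : ℤ) - (x i : ℤ)) := by
  obtain ⟨αi, hαi⟩ := g_dvd_a N i
  obtain ⟨αj, hαj⟩ := g_dvd_a N j
  have hxi : (x i : ℤ) = g N i * v N i := by exact_mod_cast (g_mul_v N i).symm
  have hxj : (x j : ℤ) = g N j * v N j := by exact_mod_cast (g_mul_v N j).symm
  refine ⟨(αi - 1) * v N j - αj * v N i, ?_⟩
  rw [sum_g N (i + 1) j (by omega) hij, a_succ N i hi, hαi, hαj, hxi, hxj]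
  ring

end Pool.Agent.H5.GR
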