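import Mathlib

set_option autoImplicit false

namespace Pool.Agent.H5.GR

/-- the potential `(K² - a² - ab - b²)/(ab) + 4` -/
noncomputable def psi (K a b : ℝ) : ℝ := (K ^ 2 - a ^ 2 - a * b - b ^ 2) / (a * b) + 4

theorem psi_le_five (K a b : ℝ) (ha : 0 < a) (hb : 0 < b) (hK : 0 ≤ K) (h : K ≤ a + b) :
    psi K a b ≤ 5 := by
  unfold psi
  have h1 : (K ^ 2 - a ^ 2 - a * b - b ^ 2) / (a * b) ≤ 1 := by
    rw [div_le_one (mul_pos ha hb)]
    nlinarith
  linarith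

theorem psi_split (K a b w : ℝ) (ha : 0 < a) (hb : 0 < b) (hw : 0 < w) (haK : a ≤ K) (hbK : b ≤ K)
    (h : w ≤ a + b) : psi K a b ≤ psi K a w + psi K w b := by
  unfold psi
  have e1 : (K ^ 2 - a ^ 2 - a * w - w ^ 2) / (a * w) = (K ^ 2 - a ^ 2) / a * (1 / w) - 1 - w / a := by
    field_simp
  have e2 : (K ^ 2 - w ^ 2 - w * b - b ^ 2) / (w * b) = (K ^ 2 - b ^ 2) / b * (1 / w) - 1 - w / b := by
    field_simp
    ring
  have hA : 0 ≤ (K ^ 2 - a ^ 2) / a := div_nonneg (by nlinarith) ha.le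
  have hB : 0 ≤ (K ^ 2 - b ^ 2) / b := div_nonneg (by nlinarith) hb.le
  have hwi : 1 / (a + b) ≤ 1 / w := one_div_le_one_div_of_le hw h
  have h1 : (K ^ 2 - a ^ 2) / a * (1 / (a + b)) ≤ (K ^ 2 - a ^ 2) / a * (1 / w) :=
    mul_le_mul_of_nonneg_left hwi hA
  have h2 : (K ^ 2 - b ^ 2) / b * (1 / (a + b)) ≤ (K ^ 2 - b ^ 2) / b * (1 / w) :=
    mul_le_mul_of_nonneg_left hwi hB
  have h3 : w / a ≤ (a + b) / a := div_le_div_of_nonneg_right h ha.le
  have h4 : w / b ≤ (a + b) / b := div_le_div_of_nonneg_right h hb.le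
  rw [e1, e2]
  have key : (K ^ 2 - a ^ 2 - a * b - b ^ 2) / (a * b) + 4 =
      (K ^ 2 - a ^ 2) / a * (1 / (a + b)) + (K ^ 2 - b ^ 2) / b * (1 / (a + b)) - 2 -
        (a + b) / a - (a + b) / b + 8 := by
    field_simp
    ring
  linarith

/-- The combinatorial lemma. -/
theorem comb (w : ℕ → ℝ) (hw : ∀ n, 0 < w n) (K : ℝ) (hK : 0 ≤ K) (p q : ℕ)
    (H : ∀ i j, p ≤ i → i < j → j ≤ q → w i + w j ≤ K → ∃ l, i < l ∧ l < j ∧ w l ≤ w i + w j) :
    ∀ (d i j : ℕ), p ≤ i → i < j → j ≤ q → j - i ≤ d → psi K (w i) (w j) ≤ 5 * ((j : ℝ) - i) := by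
  intro d
  induction d with
  | zero =>
    intro i j _ hij _ hd
    omega
  | succ d ih =>
    intro i j hpi hij hjq hd
    by_cases hle : w i + w j ≤ K
    · obtain ⟨l, hl1, hl2, hl3⟩ := H i j hpi hij hjq hle
      have h1 := ih i l hpi hl1 (by omega) (by omega)
      have h2 := ih l j (by omega) hl2 hjq (by omega)
      have h3 := psi_split K (w i) (w j) (w l) (hw i) (hw j) (hw l)
        (by have := hw j; linarith) (by have := hw i; linarith) hl3
      linarith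
    · have h1 := psi_le_five K (w i) (w j) (hw i) (hw j) hK (by linarith)
      have h2 : (1 : ℝ) ≤ (j : ℝ) - i := by
        have : (i : ℝ) + 1 ≤ j := by exact_mod_cast hij
        linarith
      linarith

end Pool.Agent.H5.GR
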