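import Pool.Agent.H5.GR.Near

set_option autoImplicit false

namespace Pool.Agent.H5.GR

theorem card_sep (A : Finset ℕ) (d : ℕ) (hd : 1 ≤ d) (L : ℝ) (hL : 0 ≤ L)
    (h : ∀ i ∈ A, ∀ i' ∈ A, i < i' → d ∣ i' - i ∧ ((i' : ℝ) - i) ≤ L) :
    (A.card : ℝ) ≤ L / d + 1 := by
  have hd0 : (0 : ℝ) < d := by exact_mod_cast hd
  rcases A.eq_empty_or_nonempty with rfl | hne
  · simp only [Finset.card_empty, Nat.cast_zero]
    have := div_nonneg hL hd0.le
    linarith
  set m := A.min' hne with hm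
  have hmA : m ∈ A := A.min'_mem hne
  have hmle : ∀ i ∈ A, m ≤ i := fun i hi => A.min'_le i hi
  have hmap : ∀ i ∈ A, (i - m) / d ∈ Finset.range (⌊L / d⌋₊ + 1) := by
    intro i hi
    rw [Finset.mem_range]
    have h1 : (((i - m) / d : ℕ) : ℝ) ≤ L / d := by
      refine (Nat.cast_div_le).trans ?_
      apply div_le_div_of_nonneg_right _ hd0.le
      rw [Nat.cast_sub (hmle i hi)]
      rcases eq_or_lt_of_le (hmle i hi) with h2 | h2
      · rw [← h2, sub_self]; exact hL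
      · exact (h m hmA i hi h2).2
    have h2 : (i - m) / d ≤ ⌊L / d⌋₊ := Nat.le_floor h1
    omega
  have hinj : Set.InjOn (fun i => (i - m) / d) (A : Set ℕ) := by
    intro i hi i' hi' heq
    simp only at heq
    have key : ∀ k ∈ A, d ∣ k - m := by
      intro k hk
      rcases eq_or_lt_of_le (hmle k hk) with h2 | h2
      · rw [← h2, Nat.sub_self]; exact dvd_zero d
      · exact (h m hmA k hk h2).1
    have h1 := Nat.div_mul_cancel (key i hi)
    have h2 := Nat.div_mul_cancel (key i' hi')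
    rw [heq] at h1
    have h3 := hmle i hi
    have h4 := hmle i' hi'
    omega
  have h1 := Finset.card_le_card_of_injOn _ hmap hinj
  rw [Finset.card_range] at h1
  have h2 : (A.card : ℝ) ≤ (⌊L / d⌋₊ : ℝ) + 1 := by exact_mod_cast h1
  have h3 := Nat.floor_le (div_nonneg hL hd0.le)
  linarith

theorem kap_diff (N n0 n1 : ℕ) (s C : ℝ) (hw : Win N n0 n1 s C) (n m : ℕ) (hn : n0 ≤ n)
    (hnm : n < m) (hm : m < n1) : ((m : ℝ) - n) / (4 * C ^ 3 * s) ≤ kap N n - kap N m := by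
  have hs := hw.hs
  have hC := hw.hC
  have hsN := hw.hsN
  have h1 := hw.one_le
  have ham : (s ^ 2) / 4 ≤ (a N m : ℝ) := by rw [hsN]; exact hw.ylow m (by omega) hm
  have han : (a N m : ℝ) ≤ a N n := by
    exact_mod_cast a_anti N n m (by omega) hnm.le
  have hn0 : (0 : ℝ) < (n : ℝ) + 1 := by positivity
  have hm0 : (0 : ℝ) < (m : ℝ) + 1 := by positivity
  have hmC := hw.high m hm
  have hnmR : (n : ℝ) < m := by exact_mod_cast hnm
  unfold kap
  have e1 : (a N m : ℝ) / ((n : ℝ) + 1) ^ 2 ≤ (a N n : ℝ) / ((n : ℝ) + 1) ^ 2 :=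
    div_le_div_of_nonneg_right han (by positivity)
  have e2 : (a N m : ℝ) / ((n : ℝ) + 1) ^ 2 - (a N m : ℝ) / ((m : ℝ) + 1) ^ 2 =
      (a N m : ℝ) * (((m : ℝ) - n) * ((n : ℝ) + m + 2)) / (((n : ℝ) + 1) ^ 2 * ((m : ℝ) + 1) ^ 2) := by
    field_simp
    ring
  have e3 : ((m : ℝ) - n) / (4 * C ^ 3 * s) ≤
      (a N m : ℝ) * (((m : ℝ) - n) * ((n : ℝ) + m + 2)) / (((n : ℝ) + 1) ^ 2 * ((m : ℝ) + 1) ^ 2) := by
    rw [div_le_div_iff₀ (by positivity) (by positivity)]
    have hd : (0 : ℝ) < (m : ℝ) - n := by linarith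
    have f1 : ((n : ℝ) + 1) ^ 2 * ((m : ℝ) + 1) ≤ (C * s) ^ 3 := by
      have : ((n : ℝ) + 1) ≤ C * s := by linarith
      calc ((n : ℝ) + 1) ^ 2 * ((m : ℝ) + 1) ≤ (C * s) ^ 2 * (C * s) := by
            apply mul_le_mul _ hmC hm0.le (by positivity)
            exact pow_le_pow_left₀ hn0.le this 2
        _ = (C * s) ^ 3 := by ring
    have f2 : ((m : ℝ) + 1) ≤ (n : ℝ) + m + 2 := by linarith
    calc ((m : ℝ) - n) * (((n : ℝ) + 1) ^ 2 * ((m : ℝ) + 1) ^ 2)
        = ((m : ℝ) - n) * ((((n : ℝ) + 1) ^ 2 * ((m : ℝ) + 1)) * ((m : ℝ) + 1)) := by ring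
      _ ≤ ((m : ℝ) - n) * ((C * s) ^ 3 * ((n : ℝ) + m + 2)) := by
          apply mul_le_mul_of_nonneg_left _ hd.le
          apply mul_le_mul f1 f2 hm0.le (by positivity)
      _ = (s ^ 2 / 4) * (((m : ℝ) - n) * ((n : ℝ) + m + 2)) * (4 * C ^ 3 * s) := by ring
      _ ≤ (a N m : ℝ) * (((m : ℝ) - n) * ((n : ℝ) + m + 2)) * (4 * C ^ 3 * s) := by
          apply mul_le_mul_of_nonneg_right _ (by positivity)
          apply mul_le_mul_of_nonneg_right ham
          have : (0 : ℝ) < (n : ℝ) + m + 2 := by positivity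
          positivity
  linarith

/-- indices `i` with fixed shift `t`, residue `r`, divisors `v, v'` and integer `E` -/
noncomputable def setA (N n0 n1 : ℕ) (η : ℝ) (t r v v' : ℕ) (E : ℤ) : Finset ℕ := by
  classical
  exact (Finset.Ico n0 n1).filter (fun i => i + t < n1 ∧ (i + 1) % 3 = r ∧ v ∣ x i ∧
    v' ∣ x (i + t) ∧ x i ≠ x (i + t) ∧
    |((x (i + t) : ℝ) - x i) * ((v : ℝ) * v') * kap N (i + t) - E| ≤ η)

theorem x_shift (i i' : ℕ) (h : i < i') (hr : (i + 1) % 3 = (i' + 1) % 3) (t : ℕ) :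
    x (i' + t) = x (i + t) + (i' - i) := by
  unfold x b
  have : (i' + t + 1) % 3 = (i + t + 1) % 3 := by omega
  rw [this]
  omega

theorem card_setA (N n0 n1 : ℕ) (s C : ℝ) (hw : Win N n0 n1 s C) (η : ℝ) (hη : 0 ≤ η)
    (t r v v' : ℕ) (ht : 1 ≤ t) (hv : 1 ≤ v) (hv' : 1 ≤ v') (E : ℤ) :
    ((setA N n0 n1 η t r v v' E).card : ℝ) ≤ 8 * η * C ^ 3 * s / ((v : ℝ) * v') ^ 2 + 1 := by
  classical
  have hs := hw.hs
  have hC := hw.hC
  have hs0 : 0 < s := by linarith
  have hC0 : 0 < C := by linarith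
  have hv0 : (1 : ℝ) ≤ v := by exact_mod_cast hv
  have hv'0 : (1 : ℝ) ≤ v' := by exact_mod_cast hv'
  rcases (setA N n0 n1 η t r v v' E).eq_empty_or_nonempty with he | ⟨i0, hi0⟩
  · rw [he, Finset.card_empty, Nat.cast_zero]
    positivity
  -- the common difference
  have hmem : ∀ i ∈ setA N n0 n1 η t r v v' E, (n0 ≤ i ∧ i < n1) ∧ (i + t < n1 ∧ (i + 1) % 3 = r ∧
      v ∣ x i ∧ v' ∣ x (i + t) ∧ x i ≠ x (i + t) ∧
      |((x (i + t) : ℝ) - x i) * ((v : ℝ) * v') * kap N (i + t) - E| ≤ η) := by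
    intro i hi
    unfold setA at hi
    rw [Finset.mem_filter, Finset.mem_Ico] at hi
    exact hi
  set c : ℝ := (x (i0 + t) : ℝ) - x i0 with hc
  set cn : ℤ := (x (i0 + t) : ℤ) - x i0 with hcn
  have hccn : (cn : ℝ) = c := by rw [hc, hcn]; push_cast; ring
  have hcn0 : cn ≠ 0 := by
    have := (hmem i0 hi0).2.2.2.2.2.1
    intro h
    apply this
    have : (x (i0 + t) : ℤ) = x i0 := by omega
    exact_mod_cast this.symm
  have hcabs : (1 : ℝ) ≤ |c| := by
    rw [← hccn]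
    have : 1 ≤ |cn| := Int.one_le_abs hcn0
    exact_mod_cast this
  have hcc : ∀ i ∈ setA N n0 n1 η t r v v' E, (x (i + t) : ℝ) - x i = c := by
    intro i hi
    have h1 := (hmem i hi).2.2.1
    have h2 := (hmem i0 hi0).2.2.1
    rcases lt_trichotomy i i0 with h | h | h
    · have e1 := x_shift i i0 h (by omega) t
      have e2 := x_shift i i0 h (by omega) 0
      rw [hc, e1]
      have e3 : x i0 = x i + (i0 - i) := e2
      rw [e3]
      push_cast
      ring
    · rw [h]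
    · have e1 := x_shift i0 i h (by omega) t
      have e2 := x_shift i0 i h (by omega) 0
      have e3 : x i = x i0 + (i - i0) := e2
      rw [hc, e1, e3]
      push_cast
      ring
  -- gcd divides c
  have hgc : (Nat.gcd v v' : ℤ) ∣ cn := by
    have h1 := (hmem i0 hi0).2.2.2.1
    have h2 := (hmem i0 hi0).2.2.2.2.1
    apply dvd_sub
    · exact_mod_cast (Nat.gcd_dvd_right v v').trans h2
    · exact_mod_cast (Nat.gcd_dvd_left v v').trans h1
  have hgle : ((Nat.gcd v v' : ℕ) : ℝ) ≤ |c| := by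
    rw [← hccn]
    have h1 := Int.le_of_dvd (abs_pos.mpr hcn0) ((dvd_abs _ _).mpr hgc)
    exact_mod_cast h1
  set d := Nat.lcm v v' with hd
  have hd1 : 1 ≤ d := Nat.pos_of_ne_zero (Nat.lcm_ne_zero (by omega) (by omega))
  have hd0 : (0 : ℝ) < d := by exact_mod_cast hd1
  have hdl : (v : ℝ) * v' ≤ |c| * d := by
    have h1 : Nat.gcd v v' * Nat.lcm v v' = v * v' := Nat.gcd_mul_lcm v v'
    have h2 : (v : ℝ) * v' = (Nat.gcd v v' : ℕ) * (d : ℝ) := by exact_mod_cast h1.symm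
    rw [h2]
    exact mul_le_mul_of_nonneg_right hgle hd0.le
  have hP0 : (0 : ℝ) < (v : ℝ) * v' := by positivity
  set L : ℝ := 8 * η * C ^ 3 * s / (|c| * ((v : ℝ) * v')) with hL
  have hL0 : 0 ≤ L := by positivity
  have hmain := card_sep (setA N n0 n1 η t r v v' E) d hd1 L hL0 (by
    intro i hi i' hi' hlt
    have m1 := hmem i hi
    have m2 := hmem i' hi'
    constructor
    · -- divisibility
      have e1 := x_shift i i' hlt (by omega) t
      have e2 : x i' = x i + (i' - i) := x_shift i i' hlt (by omega) 0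
      apply Nat.lcm_dvd
      · have h1 := m2.2.2.2.1
        rw [e2] at h1
        exact (Nat.dvd_add_right m1.2.2.2.1).mp h1
      · have h1 := m2.2.2.2.2.1
        rw [e1] at h1
        exact (Nat.dvd_add_right m1.2.2.2.2.1).mp h1
    · have h1 := m1.2.2.2.2.2.2
      have h2 := m2.2.2.2.2.2.2
      rw [hcc i hi] at h1
      rw [hcc i' hi'] at h2
      have h3 := kap_diff N n0 n1 s C hw (i + t) (i' + t) (by omega) (by omega) m2.2.1
      have h4 : ((i' + t : ℕ) : ℝ) - ((i + t : ℕ) : ℝ) = (i' : ℝ) - i := by push_cast; ring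
      rw [h4] at h3
      have h5 : |c * ((v : ℝ) * v') * (kap N (i + t) - kap N (i' + t))| ≤ 2 * η := by
        have : c * ((v : ℝ) * v') * (kap N (i + t) - kap N (i' + t)) =
            (c * ((v : ℝ) * v') * kap N (i + t) - E) - (c * ((v : ℝ) * v') * kap N (i' + t) - E) := by
          ring
        rw [this]
        refine (abs_sub _ _).trans ?_
        linarith
      have hd' : (0 : ℝ) < (i' : ℝ) - i := by
        have : (i : ℝ) < i' := by exact_mod_cast hlt
        linarith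
      have h6 : 0 ≤ kap N (i + t) - kap N (i' + t) := by
        refine le_trans ?_ h3
        positivity
      rw [abs_mul, abs_mul, abs_of_nonneg h6, abs_of_pos hP0] at h5
      rw [hL, le_div_iff₀ (by positivity)]
      have h7 : |c| * ((v : ℝ) * v') * (((i' : ℝ) - i) / (4 * C ^ 3 * s)) ≤ 2 * η :=
        le_trans (mul_le_mul_of_nonneg_left h3 (by positivity)) h5
      have h8 : |c| * ((v : ℝ) * v') * (((i' : ℝ) - i) / (4 * C ^ 3 * s)) =
          (((i' : ℝ) - i) * (|c| * ((v : ℝ) * v'))) / (4 * C ^ 3 * s) := by ring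
      rw [h8, div_le_iff₀ (by positivity)] at h7
      linarith)
  refine hmain.trans ?_
  have h9 : L / d ≤ 8 * η * C ^ 3 * s / ((v : ℝ) * v') ^ 2 := by
    rw [hL, div_div]
    apply div_le_div_of_nonneg_left (by positivity) (by positivity)
    calc ((v : ℝ) * v') ^ 2 = ((v : ℝ) * v') * ((v : ℝ) * v') := by ring
      _ ≤ ((v : ℝ) * v') * (|c| * d) := mul_le_mul_of_nonneg_left hdl hP0.le
      _ = |c| * ((v : ℝ) * v') * d := by ring
  linarith

end Pool.Agent.H5.GR
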