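import Mathlib

set_option autoImplicit false

namespace Pool.Agent.H5.GR

/-- the 3-periodic sequence `b(n) = 2, 6, 0` for `n ≡ 1, 2, 0 (mod 3)` -/
def b (n : ℕ) : ℕ := if n % 3 = 1 then 2 else if n % 3 = 2 then 6 else 0

/-- the sequence `a_N`: `a_N(1) = N - 6` and
`a_N(n) = a_N(n-1) - gcd (a_N(n-1), n + b(n))` for `n ≥ 2` (the value at `0` is a dummy) -/
def a (N : ℕ) : ℕ → ℤ
  | 0 => 0
  | 1 => (N : ℤ) - 6
  | (n + 2) => a N (n + 1) - (Int.gcd (a N (n + 1)) ((n + 2 + b (n + 2) : ℕ) : ℤ) : ℤ)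

/-- `f(N)` is the least `n ≥ 1` with `a_N(n) = 0` -/
noncomputable def f (N : ℕ) : ℕ := sInf {n : ℕ | 1 ≤ n ∧ a N n = 0}

end Pool.Agent.H5.GR
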