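import Pool.Agent.H5.GR.Rare
import Pool.Agent.H5.GR.Comb

set_option autoImplicit false

namespace Pool.Agent.H5.GR

/-- the window -/
theorem exists_window (N : ℕ) (s C : ℝ) (hs : 32 ≤ s) (hsN : s ^ 2 = N) (hC : 1 ≤ C)
    (hf : (f N : ℝ) < C * s) :
    ∃ n0 n1 : ℕ, Win N n0 n1 s C ∧ (n1 : ℝ) ≤ C * s ∧
      (N : ℝ) / 2 ≤ ∑ k ∈ Finset.Ico n0 n1, (g N k : ℝ) := by
  have hNR : (1024 : ℝ) ≤ N := by rw [← hsN]; nlinarith
  have hN6 : 6 ≤ N := by
    have : (6 : ℝ) ≤ N := by linarith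
    exact_mod_cast this
  obtain ⟨hf1, hf0⟩ := f_spec N hN6
  set r := Nat.sqrt N with hr
  have hr1 : (r : ℝ) ≤ s := by
    have h1 : r * r ≤ N := Nat.sqrt_le N
    have h2 : (r : ℝ) * r ≤ N := by exact_mod_cast h1
    rw [← hsN] at h2
    nlinarith
  have hr2 : s < (r : ℝ) + 1 := by
    have h1 : N < (r + 1) * (r + 1) := Nat.lt_succ_sqrt N
    have h2 : (N : ℝ) < ((r : ℝ) + 1) * (r + 1) := by exact_mod_cast h1
    rw [← hsN] at h2
    have : (0 : ℝ) ≤ r := by positivity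
    nlinarith
  set n0 := r / 2 with hn0
  have h2n0 : r ≤ 2 * n0 + 1 := by omega
  have h2n0' : 2 * n0 ≤ r := by omega
  have h2R : (r : ℝ) ≤ 2 * n0 + 1 := by exact_mod_cast h2n0
  have h2R' : (2 : ℝ) * n0 ≤ r := by exact_mod_cast h2n0'
  have hn01 : 1 ≤ n0 := by
    have : (1 : ℝ) ≤ n0 := by linarith
    exact_mod_cast this
  have ha0 : (3 : ℝ) * N / 4 ≤ (a N n0 : ℝ) := by
    have h1 := a_lower N n0 hn01
    have h2 : 2 * (N : ℝ) - 12 - ((n0 : ℝ) - 1) * (n0 + 14) ≤ 2 * a N n0 := by exact_mod_cast h1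
    have h3 : (n0 : ℝ) ≤ s / 2 := by linarith
    have h4 : (1 : ℝ) ≤ n0 := by exact_mod_cast hn01
    nlinarith
  have hn0f : n0 < f N := by
    by_contra hcon
    push Not at hcon
    have h1 := a_anti N (f N) n0 hf1 hcon
    rw [hf0] at h1
    have h2 : (a N n0 : ℝ) ≤ 0 := by exact_mod_cast h1
    linarith
  have hex : ∃ n, n0 ≤ n ∧ (a N n : ℝ) < N / 4 := ⟨f N, hn0f.le, by
    rw [hf0]; simp; linarith⟩
  classical
  set n1 := Nat.find hex with hn1
  obtain ⟨hn01', hn1a⟩ := Nat.find_spec hex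
  rw [← hn1] at hn01' hn1a
  have hn1min : ∀ n, n0 ≤ n → n < n1 → (N : ℝ) / 4 ≤ a N n := by
    intro n h1 h2
    have := Nat.find_min hex h2
    push Not at this
    exact this h1
  have hn1f : n1 ≤ f N := Nat.find_min' hex ⟨hn0f.le, by rw [hf0]; simp; linarith⟩
  have hn1C : (n1 : ℝ) ≤ C * s := by
    have : (n1 : ℝ) ≤ f N := by exact_mod_cast hn1f
    linarith
  have hCs : 32 ≤ C * s := by nlinarith
  refine ⟨n0, n1, ⟨by linarith, hsN, hC, hn01, by linarith, ?_, ?_, hn1min, ?_⟩, hn1C, ?_⟩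
  · intro n hn
    have : ((n + 1 : ℕ) : ℝ) ≤ n1 := by exact_mod_cast hn
    push_cast at this
    linarith
  · intro n hn
    have h1 : ((n + 1 : ℕ) : ℝ) ≤ n1 := by exact_mod_cast hn
    have h2 : (x n : ℝ) ≤ n + 7 := by exact_mod_cast x_le n
    push_cast at h1
    linarith
  · intro n hn
    exact_mod_cast a_le N n hn
  · have h1 := sum_g N n0 n1 hn01 hn01'
    have h2 : (∑ k ∈ Finset.Ico n0 n1, (g N k : ℝ)) = a N n0 - a N n1 := by exact_mod_cast h1
    rw [h2]
    linarith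

/-- big indices -/
noncomputable def big (N n0 n1 : ℕ) (s C : ℝ) : Finset ℕ := by
  classical
  exact (Finset.Ico n0 n1).filter (fun i => s ≤ 4 * C * g N i)

theorem mem_big (N n0 n1 : ℕ) (s C : ℝ) (i : ℕ) :
    i ∈ big N n0 n1 s C ↔ (n0 ≤ i ∧ i < n1) ∧ s ≤ 4 * C * g N i := by
  unfold big
  rw [Finset.mem_filter, Finset.mem_Ico]

theorem big_v (N n0 n1 : ℕ) (s C : ℝ) (hw : Win N n0 n1 s C) (i : ℕ)
    (hi : i ∈ big N n0 n1 s C) : (v N i : ℝ) ≤ 8 * C ^ 2 := by
  rw [mem_big] at hi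
  have hs := hw.hs
  have hC := hw.hC
  have h1 := hw.xhigh i hi.1.2
  rw [x_real N i] at h1
  have h2 := hi.2
  have hv : (0 : ℝ) ≤ v N i := by positivity
  have h3 : s * v N i ≤ (4 * C * g N i) * v N i := mul_le_mul_of_nonneg_right h2 hv
  have h4 : (4 * C * g N i) * v N i = 4 * C * (g N i * v N i) := by ring
  have h5 : 4 * C * ((g N i : ℝ) * v N i) ≤ 4 * C * (2 * (C * s)) :=
    mul_le_mul_of_nonneg_left h1 (by linarith)
  have h6 : s * v N i ≤ s * (8 * C ^ 2) := by
    calc s * v N i ≤ 4 * C * (2 * (C * s)) := by linarith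
      _ = s * (8 * C ^ 2) := by ring
  exact le_of_mul_le_mul_left h6 (by linarith)

theorem big_card (N n0 n1 : ℕ) (s C : ℝ) (hw : Win N n0 n1 s C) (hn1 : (n1 : ℝ) ≤ C * s)
    (hsum : (N : ℝ) / 2 ≤ ∑ k ∈ Finset.Ico n0 n1, (g N k : ℝ)) :
    s / (8 * C) ≤ ((big N n0 n1 s C).card : ℝ) := by
  classical
  have hs := hw.hs
  have hC := hw.hC
  have hsN := hw.hsN
  have hsplit : ∑ k ∈ Finset.Ico n0 n1, (g N k : ℝ) ≤
      ∑ k ∈ Finset.Ico n0 n1, ((if s ≤ 4 * C * g N k then 2 * (C * s) else 0) + s / (4 * C)) := by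
    apply Finset.sum_le_sum
    intro k hk
    rw [Finset.mem_Ico] at hk
    split_ifs with h
    · have h1 := hw.xhigh k hk.2
      have h2 : (g N k : ℝ) ≤ x k := by exact_mod_cast g_le_x N k
      have h3 : 0 ≤ s / (4 * C) := by positivity
      linarith
    · push Not at h
      rw [zero_add, le_div_iff₀ (by linarith)]
      linarith
  rw [Finset.sum_add_distrib, Finset.sum_const, ← Finset.sum_filter, Finset.sum_const,
    nsmul_eq_mul, nsmul_eq_mul, Nat.card_Ico] at hsplit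
  have hb : (Finset.filter (fun k => s ≤ 4 * C * (g N k : ℝ)) (Finset.Ico n0 n1)) =
      big N n0 n1 s C := by
    unfold big
    congr
  rw [hb] at hsplit
  have h1 : ((n1 - n0 : ℕ) : ℝ) * (s / (4 * C)) ≤ (C * s) * (s / (4 * C)) := by
    apply mul_le_mul_of_nonneg_right _ (by positivity)
    refine le_trans ?_ hn1
    exact_mod_cast Nat.sub_le n1 n0
  have h2 : (C * s) * (s / (4 * C)) = s ^ 2 / 4 := by
    field_simp
  rw [h2] at h1
  rw [div_le_iff₀ (by linarith)]
  have h3 : s ^ 2 / 4 ≤ ((big N n0 n1 s C).card : ℝ) * (2 * (C * s)) := by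
    rw [← hsN] at hsum
    linarith
  have h4 : s * s ≤ ((big N n0 n1 s C).card : ℝ) * (8 * C) * s := by
    calc s * s = 4 * (s ^ 2 / 4) := by ring
      _ ≤ 4 * (((big N n0 n1 s C).card : ℝ) * (2 * (C * s))) := by linarith
      _ = _ := by ring
  exact le_of_mul_le_mul_right h4 (by linarith)

/-- isolated indices are few -/
theorem iso_card (B : Finset ℕ) (H n1 : ℕ) (hB : ∀ i ∈ B, i < n1) (I : Finset ℕ) (hI : I ⊆ B)
    (h : ∀ i ∈ I, ∀ j ∈ B, i < j → i + H < j) : (I.card : ℝ) ≤ (n1 : ℝ) / (H + 1) + 1 := by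
  have h1 : I.card ≤ n1 / (H + 1) + 1 := by
    rw [← Finset.card_range (n1 / (H + 1) + 1)]
    apply Finset.card_le_card_of_injOn (fun i => i / (H + 1))
    · intro i hi
      have h2 := hB i (hI hi)
      simp only [Finset.coe_range, Set.mem_Iio]
      have : i / (H + 1) ≤ n1 / (H + 1) := Nat.div_le_div_right h2.le
      omega
    · have key : ∀ i ∈ I, ∀ j ∈ I, i < j → i / (H + 1) < j / (H + 1) := by
        intro i hi j hj hij
        have h3 := h i hi j (hI hj) hij
        have h4 : (i + (H + 1)) / (H + 1) ≤ j / (H + 1) := Nat.div_le_div_right (by omega)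
        have h5 : (i + (H + 1)) / (H + 1) = i / (H + 1) + 1 := Nat.add_div_right i (Nat.succ_pos H)
        omega
      intro i hi j hj hij
      simp only at hij
      rcases lt_trichotomy i j with h3 | h3 | h3
      · have := key i hi j hj h3; omega
      · exact h3
      · have := key j hj i hi h3; omega
  have h2 : (I.card : ℝ) ≤ ((n1 / (H + 1) : ℕ) : ℝ) + 1 := by exact_mod_cast h1
  have h3 : ((n1 / (H + 1) : ℕ) : ℝ) ≤ (n1 : ℝ) / ((H + 1 : ℕ) : ℝ) := Nat.cast_div_le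
  push_cast at h3
  linarith

/-- in a window between two nearby big indices there is a rare start -/
theorem exists_rare (N n0 n1 H : ℕ) (Z W V : ℝ) (hW : 8 < W) (hZ : 1 ≤ Z) (i q : ℕ)
    (hi : n0 ≤ i) (hiq : i < q) (hq : q < n1) (hH : q ≤ i + H)
    (hvi : (v N i : ℝ) ≤ V) (hvq : (v N q : ℝ) ≤ V)
    (hbig : 5 * (H : ℝ) * Real.log (W * V) ^ 2 < Real.log (W ^ 2 * Z) ^ 2)
    (h3 : 3 * Real.log (W * V) ^ 2 ≤ Real.log (W ^ 2 * Z) ^ 2) :
    ∃ p ∈ rare N n0 n1 H Z W, i ≤ p ∧ p < q := by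
  classical
  by_contra hcon
  push Not at hcon
  set K := Real.log (W ^ 2 * Z) with hK
  set w : ℕ → ℝ := fun n => Real.log (W * v N n) with hwdef
  have hv1 : ∀ n, (1 : ℝ) ≤ v N n := fun n => by exact_mod_cast v_pos N n
  have hwpos : ∀ n, 0 < w n := by
    intro n
    apply Real.log_pos
    have := hv1 n
    nlinarith
  have hV1 : 1 ≤ V := le_trans (hv1 i) hvi
  have hK0 : 0 ≤ K := by
    apply Real.log_nonneg
    nlinarith
  have hcomb := comb w hwpos K hK0 i q (by
    intro i' j' hi' hij' hj' hle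
    by_contra hno
    push Not at hno
    -- product bound
    have hprod : (v N i' : ℝ) * v N j' ≤ Z := by
      have e1 : w i' + w j' = Real.log (W ^ 2 * ((v N i' : ℝ) * v N j')) := by
        rw [hwdef]
        simp only
        rw [← Real.log_mul]
        · congr 1; ring
        · have := hv1 i'; positivity
        · have := hv1 j'; positivity
      rw [e1, hK] at hle
      have h1 := hv1 i'
      have h2 := hv1 j'
      have e2 := (Real.log_le_log_iff (by positivity) (by positivity)).mp hle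
      have hW2 : 0 < W ^ 2 := by positivity
      exact le_of_mul_le_mul_left e2 hW2
    apply absurd (hcon i' ?_ hi')
    · push Not
      omega
    · unfold rare
      rw [Finset.mem_filter, Finset.mem_Ico]
      refine ⟨⟨by omega, by omega⟩, j', hij', by omega, by omega, hprod, ?_⟩
      intro l hl1 hl2
      have h1 := hno l hl1 hl2
      by_contra hcc
      push Not at hcc
      have h2 := hv1 i'
      have h3 := hv1 j'
      have h4 := hv1 l
      have e1 : w i' + w j' = Real.log (W ^ 2 * ((v N i' : ℝ) * v N j')) := by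
        rw [hwdef]
        simp only
        rw [← Real.log_mul]
        · congr 1; ring
        · positivity
        · positivity
      rw [e1] at h1
      have e2 := (Real.log_lt_log_iff (by positivity) (by positivity)).mp h1
      nlinarith) (q - i) i q le_rfl hiq le_rfl le_rfl
  have hwi : w i ≤ Real.log (W * V) := by
    apply Real.log_le_log
    · have := hv1 i; positivity
    · exact mul_le_mul_of_nonneg_left hvi (by linarith)
  have hwq : w q ≤ Real.log (W * V) := by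
    apply Real.log_le_log
    · have := hv1 q; positivity
    · exact mul_le_mul_of_nonneg_left hvq (by linarith)
  set ω := Real.log (W * V) with hω
  have hω0 : 0 < ω := lt_of_lt_of_le (hwpos i) hwi
  have hpi := hwpos i
  have hpq := hwpos q
  have hpsi : K ^ 2 / ω ^ 2 + 1 ≤ psi K (w i) (w q) := by
    unfold psi
    have h1 : K ^ 2 / ω ^ 2 - 3 ≤ (K ^ 2 - w i ^ 2 - w i * w q - w q ^ 2) / (w i * w q) := by
      have e1 : K ^ 2 / ω ^ 2 - 3 = (K ^ 2 - 3 * ω ^ 2) / ω ^ 2 := by field_simp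
      rw [e1]
      have e2 : w i * w q ≤ ω ^ 2 := by nlinarith
      have e3 : w i ^ 2 ≤ ω ^ 2 := pow_le_pow_left₀ hpi.le hwi 2
      have e4 : w q ^ 2 ≤ ω ^ 2 := pow_le_pow_left₀ hpq.le hwq 2
      have e5 : 0 < w i * w q := mul_pos hpi hpq
      calc (K ^ 2 - 3 * ω ^ 2) / ω ^ 2 ≤ (K ^ 2 - 3 * ω ^ 2) / (w i * w q) :=
            div_le_div_of_nonneg_left (by linarith) e5 e2
        _ ≤ _ := div_le_div_of_nonneg_right (by linarith) e5.le
    linarith
  have hqi : ((q : ℝ) - i) ≤ H := by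
    have : (q : ℝ) ≤ i + H := by exact_mod_cast hH
    linarith
  have h6 : K ^ 2 / ω ^ 2 ≤ 5 * H := by linarith
  rw [div_le_iff₀ (by positivity)] at h6
  linarith

/-- the counting argument, with all parameters explicit -/
theorem count_core (N n0 n1 : ℕ) (s C : ℝ) (hw : Win N n0 n1 s C) (hn1 : (n1 : ℝ) ≤ C * s)
    (hsum : (N : ℝ) / 2 ≤ ∑ k ∈ Finset.Ico n0 n1, (g N k : ℝ)) (H : ℕ) (hH : 32 * C ^ 2 ≤ H)
    (Z W : ℝ) (hW : 8 < W) (hZ : 1 ≤ Z)
    (hbig : 5 * (H : ℝ) * Real.log (W * (8 * C ^ 2)) ^ 2 < Real.log (W ^ 2 * Z) ^ 2)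
    (h3 : 3 * Real.log (W * (8 * C ^ 2)) ^ 2 ≤ Real.log (W ^ 2 * Z) ^ 2) :
    3 * s / (32 * C) - 1 ≤ ((rare N n0 n1 H Z W).card : ℝ) := by
  classical
  have hs := hw.hs
  have hC := hw.hC
  set B := big N n0 n1 s C with hB
  have hBcard := big_card N n0 n1 s C hw hn1 hsum
  rw [← hB] at hBcard
  set I := B.filter (fun i => ∀ j ∈ B, i < j → i + H < j) with hI
  set R := B.filter (fun i => ¬ ∀ j ∈ B, i < j → i + H < j) with hR
  have hcard : I.card + R.card = B.card := Finset.card_filter_add_card_filter_not _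
  have hIc : (I.card : ℝ) ≤ (n1 : ℝ) / (H + 1) + 1 := by
    apply iso_card B H n1 _ I (Finset.filter_subset _ _)
    · intro i hi
      exact (Finset.mem_filter.mp hi).2
    · intro i hi
      rw [hB, mem_big] at hi
      exact hi.1.2
  have hIc2 : (n1 : ℝ) / (H + 1) ≤ s / (32 * C) := by
    have hC2 : (0 : ℝ) < C ^ 2 := by positivity
    rw [div_le_div_iff₀ (by positivity) (by positivity)]
    calc (n1 : ℝ) * (32 * C) ≤ (C * s) * (32 * C) := by
          apply mul_le_mul_of_nonneg_right hn1 (by positivity)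
      _ = s * (32 * C ^ 2) := by ring
      _ ≤ s * (H + 1) := by
          apply mul_le_mul_of_nonneg_left _ (by linarith)
          linarith
  have hex : ∀ i ∈ R, ∃ p ∈ rare N n0 n1 H Z W, i ≤ p ∧ ∀ j ∈ B, i < j → p < j := by
    intro i hi
    rw [hR, Finset.mem_filter] at hi
    obtain ⟨hiB, hi2⟩ := hi
    push Not at hi2
    obtain ⟨j, hjB, hij, hjH⟩ := hi2
    -- the next big index
    set T := B.filter (fun j => i < j) with hT
    have hTne : T.Nonempty := ⟨j, by rw [hT, Finset.mem_filter]; exact ⟨hjB, hij⟩⟩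
    set q := T.min' hTne with hq
    have hqT : q ∈ T := T.min'_mem hTne
    rw [hT, Finset.mem_filter] at hqT
    have hqmin : ∀ j ∈ B, i < j → q ≤ j := by
      intro j hj hij
      apply T.min'_le
      rw [hT, Finset.mem_filter]
      exact ⟨hj, hij⟩
    have hqH : q ≤ i + H := (hqmin j hjB hij).trans hjH
    have hiB' := hiB
    have hqB' := hqT.1
    rw [hB, mem_big] at hiB' hqB'
    obtain ⟨p, hp1, hp2, hp3⟩ := exists_rare N n0 n1 H Z W (8 * C ^ 2) hW hZ i q hiB'.1.1 hqT.2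
      hqB'.1.2 hqH (big_v N n0 n1 s C hw i hiB) (big_v N n0 n1 s C hw q hqT.1) hbig h3
    exact ⟨p, hp1, hp2, fun j hj hij => lt_of_lt_of_le hp3 (hqmin j hj hij)⟩
  choose! p hp using hex
  have hRc : R.card ≤ (rare N n0 n1 H Z W).card := by
    apply Finset.card_le_card_of_injOn p
    · intro i hi
      exact (hp i hi).1
    · have key : ∀ i ∈ R, ∀ j ∈ R, i < j → p i < p j := by
        intro i hi j hj hij
        have h1 := (hp i hi).2.2 j (Finset.mem_filter.mp hj).1 hij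
        have h2 := (hp j hj).2.1
        omega
      intro i hi j hj hij
      rcases lt_trichotomy i j with h3 | h3 | h3
      · have := key i hi j hj h3; omega
      · exact h3
      · have := key j hj i hi h3; omega
  have h4 : (B.card : ℝ) = I.card + R.card := by exact_mod_cast hcard.symm
  have h5 : (R.card : ℝ) ≤ ((rare N n0 n1 H Z W).card : ℝ) := by exact_mod_cast hRc
  have h6 : s / (8 * C) = 4 * s / (32 * C) := by
    field_simp
    ring
  have h7 : 4 * s / (32 * C) - s / (32 * C) = 3 * s / (32 * C) := by ring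
  linarith

set_option maxHeartbeats 1000000 in
/-- the main estimate with explicit hypotheses on the size of `N` -/
theorem core (N : ℕ) (s Z C lam l : ℝ) (hsN : s ^ 2 = N) (hs0 : 0 ≤ s) (hZ0 : 1 ≤ Z)
    (hZ6 : Z ^ 6 = s) (hZl : Real.log Z = lam / 12) (hl : Real.log lam = l)
    (hlam : 10000 ≤ lam) (h1 : 10 ^ 12 * lam ^ 14 ≤ Z ^ 3) (hC : 1 ≤ C)
    (hC2 : 4000 * l * C ≤ lam) : C * s ≤ f N := by
  by_contra hcon
  push Not at hcon
  have hlam0 : 0 < lam := by linarith
  have hl1 : 1 ≤ l := by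
    rw [← hl, Real.le_log_iff_exp_le hlam0]
    have := Real.exp_one_lt_d9
    linarith
  have hClam : C ≤ lam := by nlinarith
  have hlam1 : (1 : ℝ) ≤ lam := by linarith
  have hp14 : (1 : ℝ) ≤ lam ^ 14 := one_le_pow₀ hlam1
  have hZ3 : 10 ^ 12 ≤ Z ^ 3 := by nlinarith
  have hs1 : 10 ^ 12 * Z ^ 3 ≤ s := by
    rw [← hZ6]
    have : Z ^ 6 = Z ^ 3 * Z ^ 3 := by ring
    rw [this]
    apply mul_le_mul_of_nonneg_right hZ3 (by positivity)
  have hs32 : 32 ≤ s := by nlinarith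
  have hspos : 0 < s := by linarith
  obtain ⟨n0, n1, hw, hn1, hsum⟩ := exists_window N s C hs32 hsN hC hcon
  obtain ⟨H, hH1, hH2⟩ : ∃ H : ℕ, 32 * C ^ 2 ≤ (H : ℝ) ∧ (H : ℝ) ≤ 33 * C ^ 2 := by
    refine ⟨⌈32 * C ^ 2⌉₊, Nat.le_ceil _, ?_⟩
    have h2 := Nat.ceil_lt_add_one (by positivity : (0 : ℝ) ≤ 32 * C ^ 2)
    have h3 : 1 ≤ C ^ 2 := one_le_pow₀ hC
    linarith
  set W := lam ^ 20 with hWdef
  have hW : 8 < W := by
    have : lam ≤ lam ^ 20 := le_self_pow₀ hlam1 (by norm_num)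
    linarith
  have hlogW : Real.log W = 20 * l := by
    rw [hWdef, Real.log_pow, hl]; norm_num
  set ω := Real.log (W * (8 * C ^ 2)) with hω
  have hC2pos : 0 < C ^ 2 := by positivity
  have hω1 : ω ≤ 23 * l := by
    have e1 : W * (8 * C ^ 2) ≤ lam ^ 23 := by
      have e2 : 8 * C ^ 2 ≤ lam ^ 3 := by
        have : C ^ 2 ≤ lam ^ 2 := pow_le_pow_left₀ (by linarith) hClam 2
        nlinarith
      calc W * (8 * C ^ 2) ≤ lam ^ 20 * lam ^ 3 := mul_le_mul_of_nonneg_left e2 (by positivity)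
        _ = lam ^ 23 := by ring
    have e3 : ω ≤ Real.log (lam ^ 23) := Real.log_le_log (by positivity) e1
    rw [Real.log_pow, hl] at e3
    exact_mod_cast e3
  have hω0 : 0 ≤ ω := by
    apply Real.log_nonneg
    have : 1 ≤ C ^ 2 := one_le_pow₀ hC
    nlinarith
  have hK : lam / 12 ≤ Real.log (W ^ 2 * Z) := by
    rw [← hZl]
    apply Real.log_le_log (by linarith)
    apply le_mul_of_one_le_left (by linarith)
    exact one_le_pow₀ (by linarith)
  have hK0 : 0 ≤ lam / 12 := by linarith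
  have hKsq : (lam / 12) ^ 2 ≤ Real.log (W ^ 2 * Z) ^ 2 := pow_le_pow_left₀ hK0 hK 2
  have hω2 : ω ^ 2 ≤ (23 * l) ^ 2 := pow_le_pow_left₀ hω0 hω1 2
  have hlC : (4000 * l * C) ^ 2 ≤ lam ^ 2 := pow_le_pow_left₀ (by positivity) hC2 2
  have hl0 : 0 < l ^ 2 := by positivity
  have hC1sq : 1 ≤ C ^ 2 := one_le_pow₀ hC
  have hbig : 5 * (H : ℝ) * ω ^ 2 < Real.log (W ^ 2 * Z) ^ 2 := by
    have e1 : 5 * (H : ℝ) * ω ^ 2 ≤ 5 * (33 * C ^ 2) * (23 * l) ^ 2 := by
      apply mul_le_mul _ hω2 (by positivity) (by positivity)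
      linarith
    have e2 : 5 * (33 * C ^ 2) * (23 * l) ^ 2 = 87285 * (C ^ 2 * l ^ 2) := by ring
    have e3 : (4000 * l * C) ^ 2 = 16000000 * (C ^ 2 * l ^ 2) := by ring
    have e4 : 0 < C ^ 2 * l ^ 2 := by positivity
    have e5 : (lam / 12) ^ 2 = lam ^ 2 / 144 := by ring
    rw [e5] at hKsq
    rw [e3] at hlC
    nlinarith
  have h3 : 3 * ω ^ 2 ≤ Real.log (W ^ 2 * Z) ^ 2 := by
    have : 3 * ω ^ 2 ≤ 5 * (H : ℝ) * ω ^ 2 := by
      apply mul_le_mul_of_nonneg_right _ (by positivity)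
      linarith
    linarith
  have hcount := count_core N n0 n1 s C hw hn1 hsum H hH1 Z W hW hZ0 hbig h3
  -- the bound for the rare set
  set η : ℝ := 1 / (8 * 10 ^ 6 * lam ^ 10) with hη
  have hη0 : 0 < η := by positivity
  have hη1 : η ≤ 1 := by
    rw [hη, div_le_one (by positivity)]
    have : (1 : ℝ) ≤ lam ^ 10 := one_le_pow₀ hlam1
    linarith
  have hH0 : (0 : ℝ) ≤ H := by positivity
  have hηb : 4 * H * C / W + 8 * (H + 6) * (H + 48) * Z / s ≤ η := by
    have e1 : 4 * H * C / W ≤ η / 2 := by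
      rw [hη, div_div, div_le_div_iff₀ (by positivity) (by positivity)]
      have f1 : 4 * (H : ℝ) * C ≤ 132 * lam ^ 3 := by
        calc 4 * (H : ℝ) * C ≤ 4 * (33 * C ^ 2) * C := by
              apply mul_le_mul_of_nonneg_right _ (by linarith)
              linarith
          _ = 132 * C ^ 3 := by ring
          _ ≤ 132 * lam ^ 3 := by
              have : C ^ 3 ≤ lam ^ 3 := pow_le_pow_left₀ (by linarith) hClam 3
              linarith
      calc 4 * (H : ℝ) * C * (8 * 10 ^ 6 * lam ^ 10 * 2)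
          ≤ 132 * lam ^ 3 * (8 * 10 ^ 6 * lam ^ 10 * 2) := by
            apply mul_le_mul_of_nonneg_right f1 (by positivity)
        _ = (2112 * 10 ^ 6) * lam ^ 13 := by ring
        _ ≤ (10000 ^ 7) * lam ^ 13 := by
            apply mul_le_mul_of_nonneg_right (by norm_num) (by positivity)
        _ ≤ lam ^ 7 * lam ^ 13 := by
            apply mul_le_mul_of_nonneg_right _ (by positivity)
            exact pow_le_pow_left₀ (by norm_num) hlam 7
        _ = 1 * W := by rw [hWdef]; ring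
    have e2 : 8 * ((H : ℝ) + 6) * (H + 48) * Z / s ≤ η / 2 := by
      rw [hη, div_div, div_le_div_iff₀ hspos (by positivity)]
      have f1 : ((H : ℝ) + 6) ≤ 39 * lam ^ 2 := by
        have : C ^ 2 ≤ lam ^ 2 := pow_le_pow_left₀ (by linarith) hClam 2
        have : 1 ≤ lam ^ 2 := one_le_pow₀ hlam1
        linarith
      have f2 : ((H : ℝ) + 48) ≤ 81 * lam ^ 2 := by
        have : C ^ 2 ≤ lam ^ 2 := pow_le_pow_left₀ (by linarith) hClam 2
        have : 1 ≤ lam ^ 2 := one_le_pow₀ hlam1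
        linarith
      have f3 : ((H : ℝ) + 6) * (H + 48) ≤ 39 * lam ^ 2 * (81 * lam ^ 2) :=
        mul_le_mul f1 f2 (by positivity) (by positivity)
      have f4 : lam ^ 14 * Z ≤ Z ^ 6 / 10 ^ 12 := by
        have g1 : Z ≤ Z ^ 3 := le_self_pow₀ hZ0 (by norm_num)
        have g2 : lam ^ 14 ≤ Z ^ 3 / 10 ^ 12 := by
          rw [le_div_iff₀ (by norm_num)]; linarith
        calc lam ^ 14 * Z ≤ Z ^ 3 / 10 ^ 12 * Z ^ 3 := mul_le_mul g2 g1 (by linarith) (by positivity)
          _ = Z ^ 6 / 10 ^ 12 := by ring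
      calc 8 * ((H : ℝ) + 6) * (H + 48) * Z * (8 * 10 ^ 6 * lam ^ 10 * 2)
          = 128 * 10 ^ 6 * lam ^ 10 * Z * (((H : ℝ) + 6) * (H + 48)) := by ring
        _ ≤ 128 * 10 ^ 6 * lam ^ 10 * Z * (39 * lam ^ 2 * (81 * lam ^ 2)) := by
            apply mul_le_mul_of_nonneg_left f3 (by positivity)
        _ = 404352 * 10 ^ 6 * (lam ^ 14 * Z) := by ring
        _ ≤ 404352 * 10 ^ 6 * (Z ^ 6 / 10 ^ 12) := by
            apply mul_le_mul_of_nonneg_left f4 (by positivity)
        _ = 404352 / 10 ^ 6 * s := by rw [hZ6]; ring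
        _ ≤ 1 * s := by
            apply mul_le_mul_of_nonneg_right (by norm_num) (by positivity)
    linarith
  have hrare := rare_card N n0 n1 s C hw H Z W hW hZ0 η hη1 hηb
  have hpoly : 3 * (H : ℝ) * (8 * H + 51) ≤ 31185 * C ^ 4 := by
    have f1 : 3 * (H : ℝ) ≤ 99 * C ^ 2 := by linarith
    have f2 : 8 * (H : ℝ) + 51 ≤ 315 * C ^ 2 := by linarith
    calc 3 * (H : ℝ) * (8 * H + 51) ≤ 99 * C ^ 2 * (315 * C ^ 2) :=
          mul_le_mul f1 f2 (by positivity) (by positivity)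
      _ = 31185 * C ^ 4 := by ring
  have hlog : (1 + Real.log Z) ^ 2 ≤ lam ^ 2 := by
    rw [hZl]
    apply pow_le_pow_left₀ (by positivity)
    linarith
  have hr2 : ((rare N n0 n1 H Z W).card : ℝ) ≤
      31185 * C ^ 4 * (8 * η * C ^ 3 * s * lam ^ 2 + Z ^ 3) := by
    refine hrare.trans ?_
    apply mul_le_mul hpoly _ (by positivity) (by positivity)
    have : 8 * η * C ^ 3 * s * (1 + Real.log Z) ^ 2 ≤ 8 * η * C ^ 3 * s * lam ^ 2 :=
      mul_le_mul_of_nonneg_left hlog (by positivity)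
    linarith
  -- multiply by 32 C and compare
  have hfin : 32 * C * (31185 * C ^ 4 * (8 * η * C ^ 3 * s * lam ^ 2 + Z ^ 3)) ≤ 2 * s := by
    have e1 : 32 * C * (31185 * C ^ 4 * (8 * η * C ^ 3 * s * lam ^ 2 + Z ^ 3)) =
        7983360 * η * (C ^ 8 * lam ^ 2) * s + 997920 * (C ^ 5 * Z ^ 3) := by ring
    have e2 : C ^ 8 * lam ^ 2 ≤ lam ^ 10 := by
      calc C ^ 8 * lam ^ 2 ≤ lam ^ 8 * lam ^ 2 :=
            mul_le_mul_of_nonneg_right (pow_le_pow_left₀ (by linarith) hClam 8) (by positivity)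
        _ = lam ^ 10 := by ring
    have e3 : 7983360 * η * (C ^ 8 * lam ^ 2) * s ≤ s := by
      have : 7983360 * η * (C ^ 8 * lam ^ 2) ≤ 1 := by
        calc 7983360 * η * (C ^ 8 * lam ^ 2) ≤ 7983360 * η * lam ^ 10 := by
              apply mul_le_mul_of_nonneg_left e2 (by positivity)
          _ = 7983360 / (8 * 10 ^ 6) := by
              rw [hη]; field_simp
          _ ≤ 1 := by norm_num
      calc _ ≤ 1 * s := mul_le_mul_of_nonneg_right this hs0
        _ = s := one_mul s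
    have e4 : 997920 * (C ^ 5 * Z ^ 3) ≤ s := by
      have g1 : C ^ 5 ≤ lam ^ 14 := by
        calc C ^ 5 ≤ lam ^ 5 := pow_le_pow_left₀ (by linarith) hClam 5
          _ ≤ lam ^ 14 := pow_le_pow_right₀ hlam1 (by norm_num)
      have g2 : 997920 * C ^ 5 ≤ Z ^ 3 := by
        have : 997920 * C ^ 5 ≤ 10 ^ 12 * lam ^ 14 := by
          apply mul_le_mul (by norm_num) g1 (by positivity) (by norm_num)
        linarith
      calc 997920 * (C ^ 5 * Z ^ 3) = 997920 * C ^ 5 * Z ^ 3 := by ring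
        _ ≤ Z ^ 3 * Z ^ 3 := mul_le_mul_of_nonneg_right g2 (by positivity)
        _ = s := by rw [← hZ6]; ring
    rw [e1]
    linarith
  have hcount2 : 3 * s - 32 * C ≤ 32 * C * ((rare N n0 n1 H Z W).card : ℝ) := by
    have e1 : 32 * C * (3 * s / (32 * C) - 1) = 3 * s - 32 * C := by
      field_simp
    rw [← e1]
    exact mul_le_mul_of_nonneg_left hcount (by positivity)
  have hrr : 32 * C * ((rare N n0 n1 H Z W).card : ℝ) ≤ 2 * s :=
    le_trans (mul_le_mul_of_nonneg_left hr2 (by positivity)) hfin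
  have hCs : 32 * C < s := by
    have e1 : lam ≤ lam ^ 14 := le_self_pow₀ hlam1 (by norm_num)
    have e2 : Z ^ 3 ≤ 10 ^ 12 * Z ^ 3 := le_mul_of_one_le_left (by linarith) (by norm_num)
    linarith
  linarith

end Pool.Agent.H5.GR
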