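import Mathlib
import Pool.Agent.H5.GR.Defs
import Pool.Agent.H5.GR.Main

set_option autoImplicit false

namespace Pool.Agent.H5.GR.LowerOld

open Filter Topology
open Pool.Agent.H5.GR

theorem eventually_size : ∀ᶠ t : ℝ in atTop, 10 ^ 12 * Real.log t ^ 14 ≤ t ^ ((1 : ℝ) / 4) := by
  have h1 := isLittleO_log_rpow_rpow_atTop (s := (1 : ℝ) / 4) 14 (by norm_num)
  have h2 := h1.bound (c := 1 / 10 ^ 12) (by norm_num)
  filter_upwards [h2, eventually_ge_atTop (1 : ℝ)] with t ht ht1
  have hl : 0 ≤ Real.log t := Real.log_nonneg ht1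
  rw [Real.norm_eq_abs, Real.norm_eq_abs, abs_of_nonneg (by positivity),
    abs_of_nonneg (by positivity)] at ht
  have e : Real.log t ^ (14 : ℝ) = Real.log t ^ 14 := by
    rw [← Real.rpow_natCast]; norm_num
  rw [e] at ht
  have := mul_le_mul_of_nonneg_left ht (by norm_num : (0 : ℝ) ≤ 10 ^ 12)
  rw [← mul_assoc] at this
  norm_num at this ⊢
  exact this

theorem eventually_loglog : ∀ᶠ u : ℝ in atTop, 4000 * Real.log u ≤ u := by
  have h1 := Real.isLittleO_log_id_atTop
  have h2 := h1.bound (c := 1 / 4000) (by norm_num)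
  filter_upwards [h2, eventually_ge_atTop (1 : ℝ)] with t ht ht1
  have hl : 0 ≤ Real.log t := Real.log_nonneg ht1
  simp only [id_eq] at ht
  rw [Real.norm_eq_abs, Real.norm_eq_abs, abs_of_nonneg hl, abs_of_nonneg (by linarith)] at ht
  linarith

/-- `f(N) ≥ √N log N / (4000 log log N)` for all large `N` -/
theorem result : ∃ N₀ : ℕ, ∀ N : ℕ, N₀ ≤ N →
    Real.sqrt N * Real.log N / (4000 * Real.log (Real.log N)) ≤ (f N : ℝ) := by
  have hcast : Tendsto (fun N : ℕ => (N : ℝ)) atTop atTop := tendsto_natCast_atTop_atTop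
  have hlog : Tendsto (fun N : ℕ => Real.log (N : ℝ)) atTop atTop :=
    Real.tendsto_log_atTop.comp hcast
  have h1 := hcast.eventually eventually_size
  have h2 := hlog.eventually eventually_loglog
  have h3 := hlog.eventually (eventually_ge_atTop (10000 : ℝ))
  obtain ⟨N₀, hN₀⟩ := eventually_atTop.mp ((h1.and (h2.and h3)).and (eventually_ge_atTop 1))
  refine ⟨N₀, fun N hN => ?_⟩
  obtain ⟨⟨k1, k2, k3⟩, hN1⟩ := hN₀ N hN
  have hNR : (1 : ℝ) ≤ N := by exact_mod_cast hN1
  have hN0 : (0 : ℝ) < N := by linarith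
  set Z : ℝ := (N : ℝ) ^ ((1 : ℝ) / 12) with hZ
  have hZ1 : 1 ≤ Z := Real.one_le_rpow hNR (by norm_num)
  have hZ6 : Z ^ 6 = Real.sqrt N := by
    rw [hZ, ← Real.rpow_natCast, ← Real.rpow_mul hN0.le, Real.sqrt_eq_rpow]
    norm_num
  have hZ3 : Z ^ 3 = (N : ℝ) ^ ((1 : ℝ) / 4) := by
    rw [hZ, ← Real.rpow_natCast, ← Real.rpow_mul hN0.le]
    norm_num
  have hZl : Real.log Z = Real.log N / 12 := by
    rw [hZ, Real.log_rpow hN0]; ring
  have hl1 : 0 < Real.log (Real.log N) := Real.log_pos (by linarith)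
  have key := core N (Real.sqrt N) Z (Real.log N / (4000 * Real.log (Real.log N))) (Real.log N)
    (Real.log (Real.log N)) (Real.sq_sqrt hN0.le) (Real.sqrt_nonneg _) hZ1 hZ6 hZl rfl k3
    (by rw [hZ3]; exact k1) (by rw [one_le_div (by positivity)]; exact k2)
    (by field_simp; exact le_refl _)
  calc Real.sqrt N * Real.log N / (4000 * Real.log (Real.log N))
      = Real.log N / (4000 * Real.log (Real.log N)) * Real.sqrt N := by ring
    _ ≤ _ := key

end Pool.Agent.H5.GR.LowerOld
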