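import Pool.Agent.H5.GR.Basic

set_option autoImplicit false

namespace Pool.Agent.H5.GR

/-- `κ n = a_N(n) / (n+1)²` -/
noncomputable def kap (N n : ℕ) : ℝ := (a N n : ℝ) / ((n : ℝ) + 1) ^ 2

/-- a window `J = [n0, n1)` in which everything is under control; `s = √N` -/
structure Win (N n0 n1 : ℕ) (s C : ℝ) : Prop where
  hs : 8 ≤ s
  hsN : s ^ 2 = N
  hC : 1 ≤ C
  one_le : 1 ≤ n0
  low : s / 2 ≤ (n0 : ℝ) + 1
  high : ∀ n, n < n1 → (n : ℝ) + 1 ≤ C * s
  xhigh : ∀ n, n < n1 → (x n : ℝ) ≤ 2 * (C * s)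
  ylow : ∀ n, n0 ≤ n → n < n1 → (N : ℝ) / 4 ≤ (a N n : ℝ)
  yhigh : ∀ n, 1 ≤ n → (a N n : ℝ) ≤ N

theorem x_sub (i j : ℕ) (hij : i < j) :
    |(x j : ℝ) - x i| ≤ ((j : ℝ) - i) + 6 := by
  have h1 := x_le j
  have h2 := x_ge j
  have h3 := x_le i
  have h4 := x_ge i
  have h1' : (x j : ℝ) ≤ j + 7 := by exact_mod_cast h1
  have h2' : (j : ℝ) + 1 ≤ x j := by exact_mod_cast h2
  have h3' : (x i : ℝ) ≤ i + 7 := by exact_mod_cast h3
  have h4' : (i : ℝ) + 1 ≤ x i := by exact_mod_cast h4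
  have h5 : (i : ℝ) < j := by exact_mod_cast hij
  rw [abs_le]
  constructor <;> linarith

theorem x_eq_cases (i j : ℕ) (hij : i < j) (h : x i = x j) : j = i + 2 := by
  unfold x at h
  rcases b_cases (i + 1) with h1 | h1 | h1 <;> rcases b_cases (j + 1) with h2 | h2 | h2 <;>
    rw [h1.2, h2.2] at h <;> omega

theorem pair_real (N i j : ℕ) (hi : 1 ≤ i) (hij : i < j) :
    ∃ E : ℤ, (E : ℝ) * ((g N i : ℝ) * (g N j : ℝ)) =
      ((∑ k ∈ Finset.Ico (i + 1) j, g N k : ℕ) : ℝ) * (x j : ℝ) +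
        (a N j : ℝ) * ((x j : ℝ) - (x i : ℝ)) := by
  obtain ⟨E, hE⟩ := pair_identity N i j hi hij
  exact ⟨E, by exact_mod_cast hE⟩

theorem x_real (N n : ℕ) : (x n : ℝ) = g N n * v N n := by exact_mod_cast (g_mul_v N n).symm

/-- rare pairs have `x i ≠ x j` -/
theorem x_ne (N : ℕ) (W : ℝ) (hW : 8 < W) (i j : ℕ) (hi : 1 ≤ i) (hij : i < j)
    (hl : ∀ l, i < l → l < j → W * ((v N i : ℝ) * v N j) ≤ v N l) : x i ≠ x j := by
  intro hx
  obtain ⟨E, hER⟩ := pair_real N i j hi hij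
  have hj2 := x_eq_cases i j hij hx
  subst hj2
  have h1 : ((∑ k ∈ Finset.Ico (i + 1) (i + 2), g N k : ℕ) : ℝ) = g N (i + 1) := by
    have : Finset.Ico (i + 1) (i + 2) = {i + 1} := by
      rw [Nat.Ico_succ_singleton]
    rw [this, Finset.sum_singleton]
  have hgi : (1 : ℝ) ≤ g N i := by exact_mod_cast g_pos N i
  have hgj : (1 : ℝ) ≤ g N (i + 2) := by exact_mod_cast g_pos N (i + 2)
  have hvi : (1 : ℝ) ≤ v N i := by exact_mod_cast v_pos N i
  have hvj : (1 : ℝ) ≤ v N (i + 2) := by exact_mod_cast v_pos N (i + 2)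
  have hxi := x_real N i
  have hxj := x_real N (i + 2)
  have hxi0 : (0 : ℝ) < x i := by exact_mod_cast x_pos i
  have hxj0 : (0 : ℝ) < x (i + 2) := by exact_mod_cast x_pos (i + 2)
  have hx' : (x i : ℝ) = x (i + 2) := by exact_mod_cast hx
  rw [h1, hx', sub_self, mul_zero, add_zero] at hER
  have hg1 : (1 : ℝ) ≤ g N (i + 1) := by exact_mod_cast g_pos N (i + 1)
  have hgg : 0 < (g N i : ℝ) * (g N (i + 2) : ℝ) := by positivity
  have hEpos : 0 < (E : ℝ) := by
    by_contra hneg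
    push Not at hneg
    have h2 : (E : ℝ) * ((g N i : ℝ) * (g N (i + 2) : ℝ)) ≤ 0 :=
      mul_nonpos_of_nonpos_of_nonneg hneg hgg.le
    have h3 : 0 < (g N (i + 1) : ℝ) * (x (i + 2) : ℝ) := by positivity
    linarith
  have hE1 : (1 : ℝ) ≤ E := by
    have : 0 < E := by exact_mod_cast hEpos
    exact_mod_cast this
  have h2 : (g N i : ℝ) * (g N (i + 2) : ℝ) ≤ g N (i + 1) * x (i + 2) := by
    rw [← hER]
    exact le_mul_of_one_le_left hgg.le hE1
  have h3 := hl (i + 1) (by omega) (by omega)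
  have h4 := x_real N (i + 1)
  have h5 : (x (i + 1) : ℝ) ≤ 8 * x i := by
    have h6 := x_le (i + 1)
    have h7 := x_ge i
    have h8 : x (i + 1) ≤ 8 * x i := by omega
    exact_mod_cast h8
  set P : ℝ := (v N i : ℝ) * v N (i + 2) with hP
  have hP0 : 0 < P := by positivity
  have h6 : (x i : ℝ) * x (i + 2) ≤ g N (i + 1) * x (i + 2) * P := by
    have : (x i : ℝ) * x (i + 2) = ((g N i : ℝ) * (g N (i + 2) : ℝ)) * P := by
      rw [hxi, hxj, hP]; ring
    rw [this]
    exact mul_le_mul_of_nonneg_right h2 hP0.le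
  have h7 : (x i : ℝ) ≤ g N (i + 1) * P := by
    have : (x i : ℝ) * x (i + 2) ≤ (g N (i + 1) * P) * x (i + 2) := by linarith
    exact le_of_mul_le_mul_right this hxj0
  have h8 : W * (x i : ℝ) ≤ x (i + 1) := by
    calc W * (x i : ℝ) ≤ W * (g N (i + 1) * P) := by
          apply mul_le_mul_of_nonneg_left h7; linarith
      _ = g N (i + 1) * (W * P) := by ring
      _ ≤ g N (i + 1) * v N (i + 1) := by
          apply mul_le_mul_of_nonneg_left h3; linarith
      _ = x (i + 1) := h4.symm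
  nlinarith

/-- the loss between the two indices of a rare pair -/
theorem loss_le (N n0 n1 : ℕ) (s C : ℝ) (hw : Win N n0 n1 s C) (H : ℕ) (W P : ℝ)
    (i j : ℕ) (hj : j < n1) (hH : j ≤ i + H)
    (hl : ∀ l, i < l → l < j → W * P ≤ v N l) :
    ((∑ k ∈ Finset.Ico (i + 1) j, g N k : ℕ) : ℝ) * (W * P) ≤ H * (2 * (C * s)) := by
  have hs := hw.hs
  have hC := hw.hC
  push_cast
  rw [Finset.sum_mul]
  have hcard : ((Finset.Ico (i + 1) j).card : ℝ) ≤ H := by
    rw [Nat.card_Ico]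
    have : j - (i + 1) ≤ H := by omega
    exact_mod_cast this
  calc ∑ k ∈ Finset.Ico (i + 1) j, (g N k : ℝ) * (W * P)
      ≤ ∑ _k ∈ Finset.Ico (i + 1) j, (2 * (C * s)) := by
        apply Finset.sum_le_sum
        intro k hk
        rw [Finset.mem_Ico] at hk
        have h1 := hl k (by omega) (by omega)
        have h3 := hw.xhigh k (by omega)
        have h4 : (0 : ℝ) ≤ g N k := by positivity
        calc (g N k : ℝ) * (W * P) ≤ g N k * v N k := mul_le_mul_of_nonneg_left h1 h4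
          _ = x k := (x_real N k).symm
          _ ≤ _ := h3
    _ = (Finset.Ico (i + 1) j).card * (2 * (C * s)) := by
        rw [Finset.sum_const, nsmul_eq_mul]
    _ ≤ H * (2 * (C * s)) := by
        apply mul_le_mul_of_nonneg_right hcard
        positivity

theorem sq_close (i j H : ℕ) (hij : i < j) (hH : j ≤ i + H) :
    |((j : ℝ) + 1) ^ 2 - x i * x j| ≤ (H + 48) * ((j : ℝ) + 1) := by
  have hxi0 : (0 : ℝ) < x i := by exact_mod_cast x_pos i
  have hxj0 : (0 : ℝ) < x j := by exact_mod_cast x_pos j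
  have e1 : (x i : ℝ) ≤ j + 6 := by
    have := x_le i
    have : x i ≤ j + 6 := by omega
    exact_mod_cast this
  have e2 : (x j : ℝ) ≤ j + 7 := by exact_mod_cast x_le j
  have e3 : (j : ℝ) + 1 ≤ x j := by exact_mod_cast x_ge j
  have e4 : (j : ℝ) + 1 ≤ x i + H := by
    have := x_ge i
    have : j + 1 ≤ x i + H := by omega
    exact_mod_cast this
  have hH0 : (0 : ℝ) ≤ H := by positivity
  have hj0 : (0 : ℝ) ≤ j := by positivity
  rw [abs_le]
  constructor
  · have : (x i : ℝ) * x j ≤ (j + 6) * (j + 7) :=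
      mul_le_mul e1 e2 hxj0.le (by positivity)
    nlinarith
  · have : ((j : ℝ) + 1 - H) * (j + 1) ≤ x i * x j := by
      calc ((j : ℝ) + 1 - H) * (j + 1) ≤ x i * (j + 1) := by
            apply mul_le_mul_of_nonneg_right (by linarith) (by positivity)
        _ ≤ x i * x j := mul_le_mul_of_nonneg_left e3 hxi0.le
    nlinarith

theorem kap_close (N n0 n1 : ℕ) (s C : ℝ) (hw : Win N n0 n1 s C) (H : ℕ)
    (i j : ℕ) (hi : n0 ≤ i) (hij : i < j) (hj : j < n1) (hH : j ≤ i + H) :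
    |(a N j : ℝ) / (x i * x j) - kap N j| ≤ 8 * (H + 48) / s := by
  have hs := hw.hs
  have hsN := hw.hsN
  have hxi2 : s / 2 ≤ (x i : ℝ) := by
    have h1 := hw.low
    have h2 : (n0 : ℝ) ≤ i := by exact_mod_cast hi
    have h3 : (i : ℝ) + 1 ≤ x i := by exact_mod_cast x_ge i
    linarith
  have hj1 : s / 2 ≤ (j : ℝ) + 1 := by
    have h1 := hw.low
    have h2 : (n0 : ℝ) ≤ j := by exact_mod_cast (by omega : n0 ≤ j)
    linarith
  have hxj2 : s / 2 ≤ (x j : ℝ) := by
    have h3 : (j : ℝ) + 1 ≤ x j := by exact_mod_cast x_ge j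
    linarith
  have hxi0 : (0 : ℝ) < x i := by linarith
  have hxj0 : (0 : ℝ) < x j := by linarith
  have hj0 : (0 : ℝ) < (j : ℝ) + 1 := by linarith
  have hyj : (0 : ℝ) < a N j := by
    have := hw.ylow j (by omega) hj
    have : (0 : ℝ) < N := by rw [← hsN]; positivity
    linarith
  have h1 : (a N j : ℝ) / (x i * x j) - kap N j =
      (a N j : ℝ) * (((j : ℝ) + 1) ^ 2 - x i * x j) / ((x i * x j) * ((j : ℝ) + 1) ^ 2) := by
    unfold kap
    field_simp
  have hD : (0 : ℝ) < (x i * x j) * ((j : ℝ) + 1) ^ 2 := by positivity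
  rw [h1, abs_div, abs_mul, abs_of_pos hyj, abs_of_pos hD]
  have h2 := sq_close i j H hij hH
  have h3 : (a N j : ℝ) ≤ s ^ 2 := by rw [hsN]; exact hw.yhigh j (by omega)
  rw [div_le_div_iff₀ hD (by linarith)]
  have h4 : (a N j : ℝ) * |((j : ℝ) + 1) ^ 2 - x i * x j| * s ≤
      s ^ 2 * ((H + 48) * ((j : ℝ) + 1)) * s := by
    apply mul_le_mul_of_nonneg_right _ (by linarith)
    exact mul_le_mul h3 h2 (abs_nonneg _) (by positivity)
  have h5 : s ^ 3 ≤ 8 * ((x i * x j) * ((j : ℝ) + 1)) := by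
    have : (s / 2) * (s / 2) * (s / 2) ≤ (x i * x j) * ((j : ℝ) + 1) := by
      apply mul_le_mul _ hj1 (by linarith) (by positivity)
      exact mul_le_mul hxi2 hxj2 (by linarith) (by positivity)
    have e : (s / 2) * (s / 2) * (s / 2) = s ^ 3 / 8 := by ring
    rw [e] at this
    linarith
  have hH0 : (0 : ℝ) ≤ H := by positivity
  calc (a N j : ℝ) * |((j : ℝ) + 1) ^ 2 - x i * x j| * s
      ≤ s ^ 2 * ((H + 48) * ((j : ℝ) + 1)) * s := h4
    _ = s ^ 3 * ((H + 48) * ((j : ℝ) + 1)) := by ring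
    _ ≤ (8 * ((x i * x j) * ((j : ℝ) + 1))) * ((H + 48) * ((j : ℝ) + 1)) := by
        apply mul_le_mul_of_nonneg_right h5 (by positivity)
    _ = 8 * (H + 48) * ((x i * x j) * ((j : ℝ) + 1) ^ 2) := by ring

/-- closeness to an integer for rare pairs -/
theorem near (N n0 n1 : ℕ) (s C : ℝ) (hw : Win N n0 n1 s C) (H : ℕ) (Z W : ℝ)
    (hW : 8 < W) (i j : ℕ) (hi : n0 ≤ i) (hij : i < j) (hj : j < n1) (hH : j ≤ i + H)
    (hZ : (v N i : ℝ) * v N j ≤ Z)
    (hl : ∀ l, i < l → l < j → W * ((v N i : ℝ) * v N j) ≤ v N l) :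
    ∃ E : ℤ, |((x j : ℝ) - x i) * ((v N i : ℝ) * v N j) * kap N j - E| ≤
        4 * H * C / W + 8 * (H + 6) * (H + 48) * Z / s := by
  obtain ⟨E, hER⟩ := pair_real N i j (le_trans hw.one_le hi) hij
  have hs := hw.hs
  have hC := hw.hC
  have hvi : (1 : ℝ) ≤ v N i := by exact_mod_cast v_pos N i
  have hvj : (1 : ℝ) ≤ v N j := by exact_mod_cast v_pos N j
  have hxi := x_real N i
  have hxj := x_real N j
  have hxi0 : (0 : ℝ) < x i := by exact_mod_cast x_pos i
  have hxj0 : (0 : ℝ) < x j := by exact_mod_cast x_pos j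
  set P : ℝ := (v N i : ℝ) * v N j with hP
  have hP0 : 0 < P := by positivity
  have hLb := loss_le N n0 n1 s C hw H W P i j hj hH hl
  set L : ℝ := ((∑ k ∈ Finset.Ico (i + 1) j, g N k : ℕ) : ℝ) with hL
  have hLnn : 0 ≤ L := by positivity
  refine ⟨E, ?_⟩
  have hxi2 : s / 2 ≤ (x i : ℝ) := by
    have h1 := hw.low
    have h2 : (n0 : ℝ) ≤ i := by exact_mod_cast hi
    have h3 : (i : ℝ) + 1 ≤ x i := by exact_mod_cast x_ge i
    linarith
  have hEform : (E : ℝ) = L * P / x i + ((x j : ℝ) - x i) * P * ((a N j : ℝ) / (x i * x j)) := by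
    have h1 : (g N i : ℝ) * (g N j : ℝ) * P = x i * x j := by rw [hxi, hxj, hP]; ring
    have h2 : (E : ℝ) * (x i * x j) = (L * x j + (a N j : ℝ) * ((x j : ℝ) - x i)) * P := by
      rw [← hER, ← h1]; ring
    have h3 : L * P / x i + ((x j : ℝ) - x i) * P * ((a N j : ℝ) / (x i * x j)) =
        (L * x j + (a N j : ℝ) * ((x j : ℝ) - x i)) * P / (x i * x j) := by
      field_simp
    rw [h3, ← h2]
    field_simp
  have hdiff : |(x j : ℝ) - x i| ≤ H + 6 := by
    have h1 := x_sub i j hij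
    have h2 : (j : ℝ) ≤ i + H := by exact_mod_cast hH
    linarith
  have hkap := kap_close N n0 n1 s C hw H i j hi hij hj hH
  have hH0 : (0 : ℝ) ≤ H := by positivity
  have hmain : |((x j : ℝ) - x i) * P * kap N j - E| ≤
      L * P / x i + |(x j : ℝ) - x i| * P * (8 * (H + 48) / s) := by
    have h1 : ((x j : ℝ) - x i) * P * kap N j - E = -(L * P / x i) -
        ((x j : ℝ) - x i) * P * ((a N j : ℝ) / (x i * x j) - kap N j) := by
      rw [hEform]; ring
    rw [h1]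
    refine (abs_sub _ _).trans ?_
    rw [abs_neg, abs_mul, abs_mul, abs_of_nonneg (by positivity : (0:ℝ) ≤ L * P / x i),
      abs_of_pos hP0]
    have := mul_le_mul_of_nonneg_left hkap
      (by positivity : (0:ℝ) ≤ |(x j : ℝ) - x i| * P)
    linarith
  refine hmain.trans ?_
  apply add_le_add
  · rw [div_le_div_iff₀ hxi0 (by linarith)]
    have h1 : L * P * W ≤ H * (2 * (C * s)) := by
      calc L * P * W = L * (W * P) := by ring
        _ ≤ _ := hLb
    calc L * P * W ≤ H * (2 * (C * s)) := h1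
      _ = 4 * H * C * (s / 2) := by ring
      _ ≤ 4 * H * C * x i := by
          apply mul_le_mul_of_nonneg_left hxi2 (by positivity)
  · have hs0 : 0 < s := by linarith
    calc |(x j : ℝ) - x i| * P * (8 * (H + 48) / s) ≤ (H + 6) * Z * (8 * (H + 48) / s) := by
          apply mul_le_mul_of_nonneg_right _ (by positivity)
          exact mul_le_mul hdiff hZ hP0.le (by positivity)
      _ = 8 * (H + 6) * (H + 48) * Z / s := by ring

end Pool.Agent.H5.GR
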