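import Pool.Agent.H5.GR.Count

set_option autoImplicit false

namespace Pool.Agent.H5.GR

/-- first indices of rare pairs -/
noncomputable def rare (N n0 n1 H : ℕ) (Z W : ℝ) : Finset ℕ := by
  classical
  exact (Finset.Ico n0 n1).filter (fun i => ∃ j, i < j ∧ j < n1 ∧ j ≤ i + H ∧
    (v N i : ℝ) * v N j ≤ Z ∧ ∀ l, i < l → l < j → W * ((v N i : ℝ) * v N j) ≤ v N l)

theorem kap_le (N n0 n1 : ℕ) (s C : ℝ) (hw : Win N n0 n1 s C) (n : ℕ) (hn : n0 ≤ n)
    (hn1 : n < n1) : 0 ≤ kap N n ∧ kap N n ≤ 4 := by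
  have hs := hw.hs
  have hsN := hw.hsN
  have h0 := hw.one_le
  have h1 : s / 2 ≤ (n : ℝ) + 1 := by
    have h1 := hw.low
    have h2 : (n0 : ℝ) ≤ n := by exact_mod_cast hn
    linarith
  have h2 := hw.ylow n hn hn1
  have h3 := hw.yhigh n (by omega)
  have hN : (0 : ℝ) < N := by rw [← hsN]; positivity
  have hp : (0 : ℝ) < ((n : ℝ) + 1) ^ 2 := by positivity
  unfold kap
  constructor
  · apply div_nonneg (by linarith) hp.le
  · rw [div_le_iff₀ hp]
    have h4 : (s / 2) ^ 2 ≤ ((n : ℝ) + 1) ^ 2 := pow_le_pow_left₀ (by linarith) h1 2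
    rw [← hsN] at h3
    nlinarith

theorem rare_card (N n0 n1 : ℕ) (s C : ℝ) (hw : Win N n0 n1 s C) (H : ℕ) (Z W : ℝ)
    (hW : 8 < W) (hZ : 1 ≤ Z) (η : ℝ) (hη1 : η ≤ 1)
    (hη : 4 * H * C / W + 8 * (H + 6) * (H + 48) * Z / s ≤ η) :
    ((rare N n0 n1 H Z W).card : ℝ) ≤
      3 * H * (8 * H + 51) * (8 * η * C ^ 3 * s * (1 + Real.log Z) ^ 2 + Z ^ 3) := by
  classical
  have hs := hw.hs
  have hC := hw.hC
  have hs0 : 0 < s := by linarith
  have hH0 : (0 : ℝ) ≤ H := by positivity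
  have hη0 : 0 ≤ η := by
    refine le_trans ?_ hη
    positivity
  set Zn := ⌊Z⌋₊ with hZn
  have hZn1 : 1 ≤ Zn := Nat.le_floor (by simpa using hZ)
  have hZnle : (Zn : ℝ) ≤ Z := Nat.floor_le (by linarith)
  -- index set of quadruples
  set I : Finset (ℕ × ℕ × ℕ × ℕ) :=
    (Finset.Icc 1 H) ×ˢ (Finset.range 3) ×ˢ (Finset.Icc 1 Zn) ×ˢ (Finset.Icc 1 Zn) with hI
  set B : ℕ → ℕ := fun q => 4 * (H + 6) * q + 1 with hB
  set F : ℕ × ℕ × ℕ × ℕ → Finset ℕ := fun p =>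
    if (p.2.2.1 : ℝ) * p.2.2.2 ≤ Z then
      (Finset.Icc (-(B (p.2.2.1 * p.2.2.2) : ℤ)) (B (p.2.2.1 * p.2.2.2))).biUnion
        (fun E => setA N n0 n1 η p.1 p.2.1 p.2.2.1 p.2.2.2 E)
    else ∅ with hF
  have hcover : rare N n0 n1 H Z W ⊆ I.biUnion F := by
    intro i hi
    unfold rare at hi
    rw [Finset.mem_filter, Finset.mem_Ico] at hi
    obtain ⟨⟨hi0, hi1⟩, j, hij, hj1, hjH, hP, hl⟩ := hi
    rw [Finset.mem_biUnion]
    obtain ⟨E, hE⟩ := near N n0 n1 s C hw H Z W hW i j hi0 hij hj1 hjH hP hl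
    have hne := x_ne N W hW i j (le_trans hw.one_le hi0) hij hl
    have hvi := v_pos N i
    have hvj := v_pos N j
    have hviR : (1 : ℝ) ≤ v N i := by exact_mod_cast hvi
    have hvjR : (1 : ℝ) ≤ v N j := by exact_mod_cast hvj
    have hviZ : v N i ≤ Zn := by
      apply Nat.le_floor
      nlinarith
    have hvjZ : v N j ≤ Zn := by
      apply Nat.le_floor
      nlinarith
    refine ⟨(j - i, (i + 1) % 3, v N i, v N j), ?_, ?_⟩
    · rw [hI]
      simp only [Finset.mem_product, Finset.mem_Icc, Finset.mem_range]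
      refine ⟨⟨by omega, by omega⟩, Nat.mod_lt _ (by norm_num), ⟨hvi, hviZ⟩, ⟨hvj, hvjZ⟩⟩
    · rw [hF]
      simp only
      rw [if_pos hP, Finset.mem_biUnion]
      have hji : i + (j - i) = j := by omega
      refine ⟨E, ?_, ?_⟩
      · -- |E| ≤ B
        have hk := kap_le N n0 n1 s C hw j (by omega) hj1
        have hc := x_sub i j hij
        have hjH' : (j : ℝ) ≤ i + H := by exact_mod_cast hjH
        have h1 : |(E : ℝ)| ≤ (H + 6) * ((v N i : ℝ) * v N j) * 4 + 1 := by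
          have h2 : |(E : ℝ)| ≤ |((x j : ℝ) - x i) * ((v N i : ℝ) * v N j) * kap N j| +
              |((x j : ℝ) - x i) * ((v N i : ℝ) * v N j) * kap N j - E| := by
            have := abs_sub (((x j : ℝ) - x i) * ((v N i : ℝ) * v N j) * kap N j)
              (((x j : ℝ) - x i) * ((v N i : ℝ) * v N j) * kap N j - E)
            simpa using this
          have h3 : |((x j : ℝ) - x i) * ((v N i : ℝ) * v N j) * kap N j| ≤
              (H + 6) * ((v N i : ℝ) * v N j) * 4 := by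
            rw [abs_mul, abs_mul, abs_of_nonneg hk.1,
              abs_of_pos (by positivity : (0 : ℝ) < (v N i : ℝ) * v N j)]
            apply mul_le_mul _ hk.2 hk.1 (by positivity)
            apply mul_le_mul_of_nonneg_right (by linarith) (by positivity)
          linarith
        have h4 : |E| ≤ ((B (v N i * v N j) : ℕ) : ℤ) := by
          have h5 : ((|E| : ℤ) : ℝ) ≤ ((B (v N i * v N j) : ℕ) : ℝ) := by
            rw [hB]
            push_cast
            linarith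
          exact_mod_cast h5
        rw [Finset.mem_Icc]
        exact abs_le.mp h4
      · unfold setA
        rw [Finset.mem_filter, Finset.mem_Ico, hji]
        exact ⟨⟨hi0, hi1⟩, hj1, rfl, v_dvd_x N i, v_dvd_x N j, hne, hE.trans hη⟩
  have hcard1 : ((rare N n0 n1 H Z W).card : ℝ) ≤ ∑ p ∈ I, ((F p).card : ℝ) := by
    have h1 := (Finset.card_le_card hcover).trans Finset.card_biUnion_le
    exact_mod_cast h1
  refine hcard1.trans ?_
  -- bound for a single quadruple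
  set Q : ℝ := 8 * η * C ^ 3 * s with hQ
  have hQ0 : 0 ≤ Q := by positivity
  have hsingle : ∀ p ∈ I, ((F p).card : ℝ) ≤
      (8 * H + 51) * (Q / ((p.2.2.1 : ℝ) * p.2.2.2) + Z) := by
    rintro ⟨t, r, w, w'⟩ hp
    rw [hI] at hp
    simp only [Finset.mem_product, Finset.mem_Icc, Finset.mem_range] at hp
    obtain ⟨⟨ht1, _⟩, _, ⟨hw1, _⟩, ⟨hw'1, _⟩⟩ := hp
    have hwR : (1 : ℝ) ≤ w := by exact_mod_cast hw1
    have hw'R : (1 : ℝ) ≤ w' := by exact_mod_cast hw'1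
    have hq0 : (0 : ℝ) < (w : ℝ) * w' := by positivity
    have hq1 : (1 : ℝ) ≤ (w : ℝ) * w' := by nlinarith
    simp only [hF]
    by_cases hP : (w : ℝ) * w' ≤ Z
    · rw [if_pos hP]
      have h1 : (((Finset.Icc (-(B (w * w') : ℤ)) (B (w * w'))).biUnion
          (fun E => setA N n0 n1 η t r w w' E)).card : ℝ) ≤
          ∑ E ∈ Finset.Icc (-(B (w * w') : ℤ)) (B (w * w')),
            ((setA N n0 n1 η t r w w' E).card : ℝ) := by
        exact_mod_cast Finset.card_biUnion_le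
      refine h1.trans ?_
      have h2 : ∑ E ∈ Finset.Icc (-(B (w * w') : ℤ)) (B (w * w')),
            ((setA N n0 n1 η t r w w' E).card : ℝ) ≤
          ∑ _E ∈ Finset.Icc (-(B (w * w') : ℤ)) (B (w * w')), (Q / ((w : ℝ) * w') ^ 2 + 1) := by
        apply Finset.sum_le_sum
        intro E _
        exact card_setA N n0 n1 s C hw η hη0 t r w w' ht1 hw1 hw'1 E
      refine h2.trans ?_
      rw [Finset.sum_const, nsmul_eq_mul, Int.card_Icc]
      have h3 : (((B (w * w') : ℤ) + 1 - -(B (w * w') : ℤ)).toNat : ℝ) =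
          2 * (4 * (H + 6) * ((w : ℝ) * w') + 1) + 1 := by
        have : ((B (w * w') : ℤ) + 1 - -(B (w * w') : ℤ)).toNat = 2 * B (w * w') + 1 := by omega
        rw [this, hB]
        push_cast
        ring
      rw [h3]
      have h4 : 2 * (4 * ((H : ℝ) + 6) * ((w : ℝ) * w') + 1) + 1 ≤ (8 * H + 51) * ((w : ℝ) * w') := by
        nlinarith
      have h5 : Q / ((w : ℝ) * w') ^ 2 + 1 ≥ 0 := by positivity
      calc (2 * (4 * ((H : ℝ) + 6) * ((w : ℝ) * w') + 1) + 1) * (Q / ((w : ℝ) * w') ^ 2 + 1)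
          ≤ ((8 * H + 51) * ((w : ℝ) * w')) * (Q / ((w : ℝ) * w') ^ 2 + 1) :=
            mul_le_mul_of_nonneg_right h4 h5
        _ = (8 * H + 51) * (Q / ((w : ℝ) * w') + (w : ℝ) * w') := by
            field_simp
        _ ≤ (8 * H + 51) * (Q / ((w : ℝ) * w') + Z) := by
            apply mul_le_mul_of_nonneg_left _ (by positivity)
            linarith
    · rw [if_neg hP, Finset.card_empty, Nat.cast_zero]
      positivity
  refine (Finset.sum_le_sum hsingle).trans ?_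
  -- evaluate the sum
  have hharm : ∑ w ∈ Finset.Icc 1 Zn, (1 / (w : ℝ)) ≤ 1 + Real.log Z := by
    have h1 := harmonic_le_one_add_log Zn
    have h2 : ((harmonic Zn : ℚ) : ℝ) = ∑ w ∈ Finset.Icc 1 Zn, (1 / (w : ℝ)) := by
      rw [harmonic_eq_sum_Icc]
      push_cast
      simp
    rw [← h2]
    refine h1.trans ?_
    have : Real.log Zn ≤ Real.log Z :=
      Real.log_le_log (by exact_mod_cast hZn1) hZnle
    linarith
  have hharm0 : 0 ≤ ∑ w ∈ Finset.Icc 1 Zn, (1 / (w : ℝ)) :=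
    Finset.sum_nonneg (fun w _ => by positivity)
  have hsum : ∑ p ∈ I, (8 * (H : ℝ) + 51) * (Q / ((p.2.2.1 : ℝ) * p.2.2.2) + Z) =
      H * 3 * ((8 * (H : ℝ) + 51) * (Q * (∑ w ∈ Finset.Icc 1 Zn, (1 / (w : ℝ))) ^ 2 +
        (Zn : ℝ) ^ 2 * Z)) := by
    rw [hI, Finset.sum_product]
    simp only
    rw [Finset.sum_const, Nat.card_Icc, nsmul_eq_mul, Finset.sum_product]
    simp only
    rw [Finset.sum_const, Finset.card_range, nsmul_eq_mul, Finset.sum_product]
    simp only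
    have e1 : ∀ w ∈ Finset.Icc 1 Zn, ∑ w' ∈ Finset.Icc 1 Zn,
        (8 * (H : ℝ) + 51) * (Q / ((w : ℝ) * w') + Z) =
        (8 * (H : ℝ) + 51) * (Q * (1 / (w : ℝ)) * (∑ w' ∈ Finset.Icc 1 Zn, (1 / (w' : ℝ))) + Zn * Z) := by
      intro w _
      rw [← Finset.mul_sum, Finset.sum_add_distrib, Finset.sum_const, Nat.card_Icc, nsmul_eq_mul,
        Finset.mul_sum]
      congr 2
      · apply Finset.sum_congr rfl
        intro w' _
        ring
    rw [Finset.sum_congr rfl e1, ← Finset.mul_sum, Finset.sum_add_distrib, Finset.sum_const,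
      Nat.card_Icc, nsmul_eq_mul, ← Finset.sum_mul, ← Finset.mul_sum]
    have : ((H + 1 - 1 : ℕ) : ℝ) = H := by simp
    rw [this]
    have h2 : ((Zn + 1 - 1 : ℕ) : ℝ) = Zn := by simp
    rw [h2]
    push_cast
    ring
  rw [hsum]
  have h1 : (∑ w ∈ Finset.Icc 1 Zn, (1 / (w : ℝ))) ^ 2 ≤ (1 + Real.log Z) ^ 2 :=
    pow_le_pow_left₀ hharm0 hharm 2
  have h2 : (Zn : ℝ) ^ 2 * Z ≤ Z ^ 3 := by
    have : (Zn : ℝ) ^ 2 ≤ Z ^ 2 := pow_le_pow_left₀ (by positivity) hZnle 2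
    nlinarith
  have h3 : Q * (∑ w ∈ Finset.Icc 1 Zn, (1 / (w : ℝ))) ^ 2 + (Zn : ℝ) ^ 2 * Z ≤
      Q * (1 + Real.log Z) ^ 2 + Z ^ 3 :=
    add_le_add (mul_le_mul_of_nonneg_left h1 hQ0) h2
  calc (H : ℝ) * 3 * ((8 * (H : ℝ) + 51) * (Q * (∑ w ∈ Finset.Icc 1 Zn, (1 / (w : ℝ))) ^ 2 +
        (Zn : ℝ) ^ 2 * Z)) ≤ H * 3 * ((8 * (H : ℝ) + 51) * (Q * (1 + Real.log Z) ^ 2 + Z ^ 3)) := by
        apply mul_le_mul_of_nonneg_left _ (by positivity)
        apply mul_le_mul_of_nonneg_left h3 (by positivity)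
    _ = 3 * H * (8 * H + 51) * (Q * (1 + Real.log Z) ^ 2 + Z ^ 3) := by ring

end Pool.Agent.H5.GR
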